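import Mathlib
set_option autoImplicit false

/-!
Polynomial lemmas for the unicritical family `z ^ d + c` over `k(t)`, `char k ∣ d`.
-/

namespace Pool.Agent.H987R3
open Polynomial UniqueFactorizationMonoid

variable {k : Type*} [Field k]

/-- a polynomial with zero derivative over a perfect field is a `p`-th power -/
theorem exists_pth_root {p : ℕ} [Fact p.Prime] [CharP k p] [PerfectRing k p] {F : k[X]}
    (h : derivative F = 0) : ∃ G : k[X], G ^ p = F := by
  refine ⟨(contract p F).map (frobeniusEquiv k p).symm.toRingHom, ?_⟩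
  have h1 := expand_contract (p := p) h (Fact.out : p.Prime).ne_zero
  rw [← map_frobenius_expand p, ← map_expand, Polynomial.map_map]
  have : (frobenius k p).comp (frobeniusEquiv k p).symm.toRingHom = RingHom.id k := by
    ext x
    simp
  rw [this, Polynomial.map_id, h1]

/-- if all roots of `Z` are roots of `B` then the radical of `Z` divides `B` -/
theorem radical_dvd_of_roots [IsAlgClosed k] [DecidableEq k] {Z B : k[X]}
    (hB : B ≠ 0) (h : ∀ γ : k, Z.eval γ = 0 → B.eval γ = 0) : radical Z ∣ B := by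
  classical
  rw [radical_dvd_iff_primeFactors_subset hB]
  intro π hπ
  rw [mem_primeFactors] at hπ ⊢
  have hirr := irreducible_of_normalized_factor π hπ
  have hdeg := IsAlgClosed.degree_eq_one_of_irreducible k hirr
  obtain ⟨γ, hγ⟩ := IsAlgClosed.exists_root π (by rw [hdeg]; exact one_ne_zero)
  have hdvd : π ∣ Z := dvd_of_mem_normalizedFactors hπ
  have hz : Z.eval γ = 0 := by
    obtain ⟨W, hW⟩ := hdvd
    rw [hW, eval_mul, hγ.eq_zero, zero_mul]
  have hb := h γ hz
  have h1 : (X - C γ) ∣ π := dvd_iff_isRoot.2 hγ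
  have h2 : Associated (X - C γ) π :=
    (irreducible_X_sub_C γ).associated_of_dvd hirr h1
  have h3 : π ∣ B := h2.symm.dvd.trans (dvd_iff_isRoot.2 hb)
  rw [mem_normalizedFactors_iff' hB]
  refine ⟨hirr, ?_, h3⟩
  exact normalize_normalized_factor π hπ

/-- Mason-Stothers for `X ^ m = Y ^ m + Z`, all roots of `Z` among the roots of `B`. -/
theorem mason [IsAlgClosed k] {m : ℕ} (hm : 3 ≤ m) {X Y B : k[X]} (hX : X ≠ 0) (hY : Y ≠ 0)
    (hB : B ≠ 0) (hXB : X.natDegree ≤ B.natDegree)
    (hYB : Y.natDegree ≤ B.natDegree) (hmax : X.natDegree = B.natDegree ∨ Y.natDegree = B.natDegree)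
    (hc : IsCoprime X Y) (hZ : X ^ m - Y ^ m ≠ 0)
    (hroots : ∀ γ : k, (X ^ m - Y ^ m).eval γ = 0 → B.eval γ = 0)
    (hder : ¬ (derivative (X ^ m) = 0 ∧ derivative (Y ^ m) = 0)) : False := by
  classical
  have hm0 : m ≠ 0 := by omega
  have h := Polynomial.abc (a := X ^ m) (b := -(Y ^ m)) (c := -(X ^ m - Y ^ m))
    (pow_ne_zero _ hX) (neg_ne_zero.2 (pow_ne_zero _ hY)) (neg_ne_zero.2 hZ)
    ((IsCoprime.neg_right_iff _ _).2 (hc.pow)) (by ring)
  rcases h with ⟨h1, h2, -⟩ | ⟨h1, h2, -⟩
  · have hrad : radical (X ^ m * -(Y ^ m) * -(X ^ m - Y ^ m)) ∣ X * Y * B := by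
      refine (radical_mul_dvd).trans (mul_dvd_mul ((radical_mul_dvd).trans (mul_dvd_mul ?_ ?_)) ?_)
      · rw [radical_pow _ hm0]; exact radical_dvd_self
      · rw [UniqueFactorizationDomain.radical_neg, radical_pow _ hm0]; exact radical_dvd_self
      · rw [UniqueFactorizationDomain.radical_neg]; exact radical_dvd_of_roots hB hroots
    have hle := natDegree_le_of_dvd hrad (mul_ne_zero (mul_ne_zero hX hY) hB)
    rw [natDegree_mul (mul_ne_zero hX hY) hB, natDegree_mul hX hY] at hle
    rw [natDegree_pow] at h1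
    rw [natDegree_neg, natDegree_pow] at h2
    have h3 : 3 * B.natDegree ≤ m * B.natDegree := Nat.mul_le_mul_right _ hm
    rcases hmax with hh | hh
    · rw [hh] at h1; omega
    · rw [hh] at h2; omega
  · rw [derivative_neg, neg_eq_zero] at h2
    exact hder ⟨h1, h2⟩

end Pool.Agent.H987R3
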