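import Mathlib
import Pool.Agent.H987R3.UniA
set_option autoImplicit false

/-!
Denominators of periodic points of `z ^ d + c` over `k(t)`.
-/

namespace Pool.Agent.H987R3
open Polynomial

variable {k : Type*} [Field k]

/-- the map `z ↦ z ^ d + c` -/
noncomputable def uni (d : ℕ) (c : RatFunc k) (z : RatFunc k) : RatFunc k := z ^ d + c

theorem star (d : ℕ) (c P : RatFunc k) :
    (uni d c P).num * (P.denom ^ d * c.denom) =
      (uni d c P).denom * (P.num ^ d * c.denom + c.num * P.denom ^ d) := by
  apply RatFunc.algebraMap_injective k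
  have h1 : algebraMap k[X] (RatFunc k) P.denom ≠ 0 :=
    (map_ne_zero_iff _ (RatFunc.algebraMap_injective k)).2 P.denom_ne_zero
  have h2 : algebraMap k[X] (RatFunc k) c.denom ≠ 0 :=
    (map_ne_zero_iff _ (RatFunc.algebraMap_injective k)).2 c.denom_ne_zero
  have h3 : algebraMap k[X] (RatFunc k) (uni d c P).denom ≠ 0 :=
    (map_ne_zero_iff _ (RatFunc.algebraMap_injective k)).2 (uni d c P).denom_ne_zero
  have e1 := RatFunc.num_div_denom P
  have e2 := RatFunc.num_div_denom c
  have e3 := RatFunc.num_div_denom (uni d c P)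
  have e4 : (uni d c P) = P ^ d + c := rfl
  rw [map_mul, map_mul, map_mul, map_add, map_mul, map_mul, map_pow, map_pow]
  have e5 : algebraMap k[X] (RatFunc k) (uni d c P).num =
      algebraMap k[X] (RatFunc k) (uni d c P).denom *
      ((algebraMap k[X] (RatFunc k) P.num / algebraMap k[X] (RatFunc k) P.denom) ^ d +
      algebraMap k[X] (RatFunc k) c.num / algebraMap k[X] (RatFunc k) c.denom) := by
    rw [e1, e2, ← e4]
    rw [eq_comm, mul_comm]
    exact (eq_div_iff h3).1 e3.symm
  rw [e5, div_pow]
  field_simp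

theorem rootMult_pow (β : k) (F : k[X]) (n : ℕ) :
    rootMultiplicity β (F ^ n) = n * rootMultiplicity β F := by
  classical
  rw [← count_roots, roots_pow, Multiset.count_nsmul, count_roots]

theorem not_both {X B : k[X]} (h : IsCoprime X B) (β : k) (hB : 0 < rootMultiplicity β B) :
    rootMultiplicity β X = 0 := by
  by_contra hne
  have h1 : (X.eval β) = 0 := by
    have := (rootMultiplicity_pos').1 (Nat.pos_of_ne_zero hne)
    exact this.2
  have h2 : B.eval β = 0 := ((rootMultiplicity_pos').1 hB).2
  obtain ⟨u, v, huv⟩ := h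
  have := congrArg (eval β) huv
  rw [eval_add, eval_mul, eval_mul, h1, h2] at this
  simp at this

/-- `v(F + G) = v(F)` if `G` vanishes to higher order -/
theorem rootMult_add {F G : k[X]} (β : k) (hF : F ≠ 0)
    (h : (Polynomial.X - C β) ^ (rootMultiplicity β F + 1) ∣ G) :
    F + G ≠ 0 ∧ rootMultiplicity β (F + G) = rootMultiplicity β F := by
  have hnd : ¬ (Polynomial.X - C β) ^ (rootMultiplicity β F + 1) ∣ F + G := by
    intro hcon
    have h2 : (Polynomial.X - C β) ^ (rootMultiplicity β F + 1) ∣ F := by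
      have := dvd_sub hcon h
      rwa [add_sub_cancel_right] at this
    have := (le_rootMultiplicity_iff hF).2 h2
    omega
  have hne : F + G ≠ 0 := by
    intro h0
    rw [h0] at hnd
    exact hnd (dvd_zero _)
  refine ⟨hne, le_antisymm ?_ ?_⟩
  · by_contra hcon
    push Not at hcon
    exact hnd ((le_rootMultiplicity_iff hne).1 hcon)
  · rw [le_rootMultiplicity_iff hne]
    exact dvd_add (pow_rootMultiplicity_dvd F β) ((pow_dvd_pow _ (Nat.le_succ _)).trans h)

theorem step_high {d : ℕ} (hd : 1 ≤ d) {c P : RatFunc k} (hc : c ≠ 0) (β : k)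
    (h : rootMultiplicity β c.denom < d * rootMultiplicity β P.denom) :
    rootMultiplicity β (uni d c P).denom = d * rootMultiplicity β P.denom := by
  set b := rootMultiplicity β P.denom with hb
  have hbpos : 0 < b := by
    rcases Nat.eq_zero_or_pos b with h0 | h0
    · rw [h0] at h; omega
    · exact h0
  have hX0 := not_both P.isCoprime_num_denom β (by rw [← hb]; exact hbpos)
  have hXne : P.num ≠ 0 := by
    intro h0
    have := P.isCoprime_num_denom
    rw [h0, isCoprime_zero_left] at this
    have h3 := not_both ((isCoprime_self).2 this) β (by rw [← hb]; exact hbpos)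
    omega
  have hE := c.denom_ne_zero
  have hF : P.num ^ d * c.denom ≠ 0 := mul_ne_zero (pow_ne_zero _ hXne) hE
  have hvF : rootMultiplicity β (P.num ^ d * c.denom) = rootMultiplicity β c.denom := by
    rw [rootMultiplicity_mul hF, rootMult_pow, hX0]; simp
  have hG : (Polynomial.X - C β) ^ (rootMultiplicity β (P.num ^ d * c.denom) + 1) ∣
      c.num * P.denom ^ d := by
    rw [hvF]
    refine Dvd.dvd.mul_left ?_ _
    refine (pow_dvd_pow _ (Nat.succ_le_of_lt h)).trans ?_
    rw [mul_comm d b, pow_mul]
    exact pow_dvd_pow_of_dvd (pow_rootMultiplicity_dvd _ _) _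
  obtain ⟨hW, hvW⟩ := rootMult_add β hF hG
  have hs := star d c P
  have hB' := (uni d c P).denom_ne_zero
  have hR : (uni d c P).denom * (P.num ^ d * c.denom + c.num * P.denom ^ d) ≠ 0 :=
    mul_ne_zero hB' hW
  have hL : (uni d c P).num * (P.denom ^ d * c.denom) ≠ 0 := by rw [hs]; exact hR
  have hv := congrArg (rootMultiplicity β) hs
  rw [rootMultiplicity_mul hL, rootMultiplicity_mul hR, hvW, hvF,
    rootMultiplicity_mul (right_ne_zero_of_mul hL), rootMult_pow, ← hb] at hv
  have hdb : 0 < d * b := Nat.mul_pos hd hbpos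
  have h0 := not_both (uni d c P).isCoprime_num_denom β (by omega)
  omega

theorem step_low {d : ℕ} {c P : RatFunc k} (hc : c ≠ 0) (β : k)
    (h : d * rootMultiplicity β P.denom < rootMultiplicity β c.denom) :
    rootMultiplicity β (uni d c P).denom = rootMultiplicity β c.denom := by
  have hC0 := not_both c.isCoprime_num_denom β (by omega)
  have hCne : c.num ≠ 0 := RatFunc.num_ne_zero hc
  have hF : c.num * P.denom ^ d ≠ 0 := mul_ne_zero hCne (pow_ne_zero _ P.denom_ne_zero)
  have hvF : rootMultiplicity β (c.num * P.denom ^ d) = d * rootMultiplicity β P.denom := by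
    rw [rootMultiplicity_mul hF, rootMult_pow, hC0]; simp
  have hG : (Polynomial.X - C β) ^ (rootMultiplicity β (c.num * P.denom ^ d) + 1) ∣
      P.num ^ d * c.denom := by
    rw [hvF]
    refine Dvd.dvd.mul_left ?_ _
    exact (pow_dvd_pow _ (Nat.succ_le_of_lt h)).trans (pow_rootMultiplicity_dvd _ _)
  obtain ⟨hW, hvW⟩ := rootMult_add β hF hG
  have hs := star d c P
  rw [add_comm (P.num ^ d * c.denom)] at hs
  have hB' := (uni d c P).denom_ne_zero
  have hR : (uni d c P).denom * (c.num * P.denom ^ d + P.num ^ d * c.denom) ≠ 0 :=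
    mul_ne_zero hB' hW
  have hL : (uni d c P).num * (P.denom ^ d * c.denom) ≠ 0 := by rw [hs]; exact hR
  have hv := congrArg (rootMultiplicity β) hs
  rw [rootMultiplicity_mul hL, rootMultiplicity_mul hR, hvW, hvF,
    rootMultiplicity_mul (right_ne_zero_of_mul hL), rootMult_pow] at hv
  have h0 := not_both (uni d c P).isCoprime_num_denom β (by omega)
  omega

theorem orbit_high {d : ℕ} (hd : 1 ≤ d) {c : RatFunc k} (hc : c ≠ 0) (β : k) (n : ℕ) :
    ∀ P : RatFunc k, rootMultiplicity β c.denom < d * rootMultiplicity β P.denom →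
    rootMultiplicity β ((uni d c)^[n] P).denom = d ^ n * rootMultiplicity β P.denom := by
  induction n with
  | zero => intro P _; simp
  | succ n ih =>
    intro P h
    have h1 := step_high hd hc β h
    rw [Function.iterate_succ_apply, ih, h1, pow_succ, mul_assoc]
    rw [h1]
    calc rootMultiplicity β c.denom < d * rootMultiplicity β P.denom := h
      _ ≤ d * (d * rootMultiplicity β P.denom) :=
        Nat.mul_le_mul_left _ (Nat.le_mul_of_pos_left _ hd)

/-- pole orders of a periodic point -/
theorem per_mult {d : ℕ} (hd : 2 ≤ d) {c : RatFunc k} (hc : c ≠ 0) (β : k) {n : ℕ} (hn : 1 ≤ n)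
    {P : RatFunc k} (hP : (uni d c)^[n] P = P) :
    d * rootMultiplicity β P.denom = rootMultiplicity β c.denom := by
  rcases lt_trichotomy (d * rootMultiplicity β P.denom) (rootMultiplicity β c.denom) with h | h | h
  · exfalso
    have h1 := step_low hc β h
    obtain ⟨j, rfl⟩ : ∃ j, n = j + 1 := ⟨n - 1, by omega⟩
    have h2 := orbit_high (by omega : 1 ≤ d) hc β j (uni d c P) (by rw [h1]; nlinarith)
    rw [← Function.iterate_succ_apply, hP, h1] at h2
    have h3 : 1 ≤ d ^ j := Nat.one_le_pow _ _ (by omega)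
    nlinarith
  · exact h
  · exfalso
    have h2 := orbit_high (by omega : 1 ≤ d) hc β n P h
    rw [hP] at h2
    have h3 : 2 ≤ d ^ n := by
      calc 2 ≤ d := hd
        _ = d ^ 1 := (pow_one d).symm
        _ ≤ d ^ n := Nat.pow_le_pow_right (by omega) hn
    have h4 : 0 < rootMultiplicity β P.denom := by
      rcases Nat.eq_zero_or_pos (rootMultiplicity β P.denom) with h0 | h0
      · rw [h0] at h; omega
      · exact h0
    nlinarith

/-- two monic polynomials over an algebraically closed field with the same root multiplicities -/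
theorem monic_ext [IsAlgClosed k] {F G : k[X]} (hF : F.Monic) (hG : G.Monic)
    (h : ∀ β : k, rootMultiplicity β F = rootMultiplicity β G) : F = G := by
  classical
  have hr : F.roots = G.roots := by
    ext β
    rw [count_roots, count_roots, h β]
  have h1 := (IsAlgClosed.splits F).eq_prod_roots_of_monic hF
  have h2 := (IsAlgClosed.splits G).eq_prod_roots_of_monic hG
  rw [h1, h2, hr]

theorem per_denom [IsAlgClosed k] {d : ℕ} (hd : 2 ≤ d) {c : RatFunc k} (hc : c ≠ 0) {n : ℕ}
    (hn : 1 ≤ n) {P : RatFunc k} (hP : (uni d c)^[n] P = P) : P.denom ^ d = c.denom := by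
  apply monic_ext (P.monic_denom.pow _) c.monic_denom
  intro β
  rw [rootMult_pow]
  exact per_mult hd hc β hn hP

theorem per_denom_eq [IsAlgClosed k] {d : ℕ} (hd : 2 ≤ d) {c : RatFunc k} (hc : c ≠ 0) {n n' : ℕ}
    (hn : 1 ≤ n) (hn' : 1 ≤ n') {P Q : RatFunc k} (hP : (uni d c)^[n] P = P)
    (hQ : (uni d c)^[n'] Q = Q) : P.denom = Q.denom := by
  apply monic_ext P.monic_denom Q.monic_denom
  intro β
  have h1 := per_mult hd hc β hn hP
  have h2 := per_mult hd hc β hn' hQ
  have : d * rootMultiplicity β P.denom = d * rootMultiplicity β Q.denom := by rw [h1, h2]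
  exact Nat.eq_of_mul_eq_mul_left (by omega) this

/-- behaviour at infinity -/
theorem step_deg {d : ℕ} {c P : RatFunc k} (hc : c ≠ 0)
    (hcd : c.num.natDegree ≤ c.denom.natDegree) (h : P.denom.natDegree < P.num.natDegree)
    (hd : 1 ≤ d) :
    ((uni d c P).num.natDegree : ℤ) - (uni d c P).denom.natDegree =
      d * ((P.num.natDegree : ℤ) - P.denom.natDegree) := by
  have hXne : P.num ≠ 0 := by
    intro h0; rw [h0] at h; simp at h
  have hE := c.denom_ne_zero
  have hC := RatFunc.num_ne_zero hc
  have hlt : (c.num * P.denom ^ d).natDegree < (P.num ^ d * c.denom).natDegree := by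
    rw [natDegree_mul hC (pow_ne_zero _ P.denom_ne_zero), natDegree_mul (pow_ne_zero _ hXne) hE,
      natDegree_pow, natDegree_pow]
    have : d * P.denom.natDegree < d * P.num.natDegree := Nat.mul_lt_mul_of_pos_left h hd
    omega
  have hW := natDegree_add_eq_left_of_natDegree_lt hlt
  have hWne : P.num ^ d * c.denom + c.num * P.denom ^ d ≠ 0 := by
    intro h0
    rw [h0, natDegree_zero] at hW
    omega
  have hs := star d c P
  have hR : (uni d c P).denom * (P.num ^ d * c.denom + c.num * P.denom ^ d) ≠ 0 :=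
    mul_ne_zero (uni d c P).denom_ne_zero hWne
  have hL : (uni d c P).num * (P.denom ^ d * c.denom) ≠ 0 := by rw [hs]; exact hR
  have hv := congrArg natDegree hs
  rw [natDegree_mul (left_ne_zero_of_mul hL) (right_ne_zero_of_mul hL),
    natDegree_mul (pow_ne_zero _ P.denom_ne_zero) hE,
    natDegree_mul (uni d c P).denom_ne_zero hWne, hW, natDegree_mul (pow_ne_zero _ hXne) hE,
    natDegree_pow, natDegree_pow] at hv
  zify at hv
  linarith

theorem orbit_deg {d : ℕ} (hd : 1 ≤ d) {c : RatFunc k} (hc : c ≠ 0)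
    (hcd : c.num.natDegree ≤ c.denom.natDegree) (n : ℕ) :
    ∀ P : RatFunc k, P.denom.natDegree < P.num.natDegree →
    (((uni d c)^[n] P).num.natDegree : ℤ) - ((uni d c)^[n] P).denom.natDegree =
      d ^ n * ((P.num.natDegree : ℤ) - P.denom.natDegree) := by
  induction n with
  | zero => intro P _; simp
  | succ n ih =>
    intro P h
    have h1 := step_deg hc hcd h hd
    have h2 : (uni d c P).denom.natDegree < (uni d c P).num.natDegree := by
      have : (0 : ℤ) < d * ((P.num.natDegree : ℤ) - P.denom.natDegree) := by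
        have : (0 : ℤ) < (P.num.natDegree : ℤ) - P.denom.natDegree := by omega
        positivity
      omega
    rw [Function.iterate_succ_apply, ih _ h2, h1, pow_succ, mul_assoc]

theorem per_deg {d : ℕ} (hd : 2 ≤ d) {c : RatFunc k} (hc : c ≠ 0)
    (hcd : c.num.natDegree ≤ c.denom.natDegree) {n : ℕ} (hn : 1 ≤ n)
    {P : RatFunc k} (hP : (uni d c)^[n] P = P) : P.num.natDegree ≤ P.denom.natDegree := by
  by_contra hcon
  push Not at hcon
  have h := orbit_deg (by omega : 1 ≤ d) hc hcd n P hcon
  rw [hP] at h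
  have h3 : (2 : ℤ) ≤ (d : ℤ) ^ n := by
    calc (2 : ℤ) ≤ d := by exact_mod_cast hd
      _ = (d : ℤ) ^ 1 := (pow_one _).symm
      _ ≤ (d : ℤ) ^ n := pow_le_pow_right₀ (by exact_mod_cast (by omega : 1 ≤ d)) hn
  have h4 : (0 : ℤ) < (P.num.natDegree : ℤ) - P.denom.natDegree := by omega
  nlinarith

end Pool.Agent.H987R3
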