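import Mathlib
import Pool.Agent.H987R3.UniB
set_option autoImplicit false

/-!
At most one periodic point when `c` is not a `p`-th power.
-/

namespace Pool.Agent.H987R3
open Polynomial Function

variable {k : Type*} [Field k]

section
variable [IsAlgClosed k] {d : ℕ} {c : RatFunc k}

theorem den_eq (hd : 2 ≤ d) (hc : c ≠ 0) {P Q : RatFunc k} (hP : P ∈ periodicPts (uni d c))
    (hQ : Q ∈ periodicPts (uni d c)) : P.denom = Q.denom := by
  obtain ⟨n, hn, hP⟩ := hP
  obtain ⟨n', hn', hQ⟩ := hQ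
  exact per_denom_eq hd hc hn hn' hP hQ

theorem den_c (hd : 2 ≤ d) (hc : c ≠ 0) {P : RatFunc k} (hP : P ∈ periodicPts (uni d c)) :
    P.denom ^ d = c.denom := by
  obtain ⟨n, hn, hP⟩ := hP
  exact per_denom hd hc hn hP

theorem deg_le (hd : 2 ≤ d) (hc : c ≠ 0) (hcd : c.num.natDegree ≤ c.denom.natDegree)
    {P : RatFunc k} (hP : P ∈ periodicPts (uni d c)) : P.num.natDegree ≤ P.denom.natDegree := by
  obtain ⟨n, hn, hP⟩ := hP
  exact per_deg hd hc hcd hn hP

theorem next_mem {P : RatFunc k} (hP : P ∈ periodicPts (uni d c)) :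
    uni d c P ∈ periodicPts (uni d c) :=
  (bijOn_periodicPts (uni d c)).mapsTo hP

theorem iter_mem {P : RatFunc k} (hP : P ∈ periodicPts (uni d c)) (n : ℕ) :
    (uni d c)^[n] P ∈ periodicPts (uni d c) := by
  induction n with
  | zero => exact hP
  | succ n ih => rw [iterate_succ_apply']; exact next_mem ih

theorem iter_ne {P Q : RatFunc k} (hP : P ∈ periodicPts (uni d c))
    (hQ : Q ∈ periodicPts (uni d c)) (hne : P ≠ Q) (n : ℕ) :
    (uni d c)^[n] P ≠ (uni d c)^[n] Q := by
  induction n with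
  | zero => exact hne
  | succ n ih =>
    rw [iterate_succ_apply', iterate_succ_apply']
    intro h
    exact ih ((bijOn_periodicPts (uni d c)).injOn (iter_mem hP n) (iter_mem hQ n) h)

theorem num_ne {P Q : RatFunc k} (hd : P.denom = Q.denom) (hne : P ≠ Q) :
    P.num - Q.num ≠ 0 := by
  intro h
  apply hne
  rw [← RatFunc.num_div_denom P, ← RatFunc.num_div_denom Q, hd, sub_eq_zero.1 h]

/-- `X' * B ^ (d - 1) = X ^ d + C` -/
theorem diamond0 (hd : 2 ≤ d) (hc : c ≠ 0) {P : RatFunc k} (hP : P ∈ periodicPts (uni d c)) :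
    (uni d c P).num * P.denom ^ (d - 1) = P.num ^ d + c.num := by
  have h := star d c P
  rw [← den_c hd hc hP, ← den_eq hd hc hP (next_mem hP)] at h
  have hB := P.denom_ne_zero
  have hd1 : P.denom ^ d = P.denom ^ (d - 1) * P.denom := by
    rw [← pow_succ]; congr 1; omega
  have h2 : P.denom * P.denom ^ d * ((uni d c P).num * P.denom ^ (d - 1)) =
      P.denom * P.denom ^ d * (P.num ^ d + c.num) := by
    calc P.denom * P.denom ^ d * ((uni d c P).num * P.denom ^ (d - 1)) =
        (uni d c P).num * ((P.denom ^ (d - 1) * P.denom) * P.denom ^ d) := by ring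
      _ = (uni d c P).num * (P.denom ^ d * P.denom ^ d) := by rw [← hd1]
      _ = _ := by rw [h]; ring
  exact mul_left_cancel₀ (mul_ne_zero hB (pow_ne_zero _ hB)) h2

end

section
variable [IsAlgClosed k] {p : ℕ} [Fact p.Prime] [CharP k p] {a m : ℕ} {c : RatFunc k}

theorem two_le_d (ha : 1 ≤ a) (hm : 1 ≤ m) : 2 ≤ p ^ a * m := by
  have hp := (Fact.out : p.Prime).two_le
  calc 2 ≤ p := hp
    _ = p ^ 1 * 1 := by simp
    _ ≤ p ^ a * m := Nat.mul_le_mul (Nat.pow_le_pow_right (by omega) ha) hm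

omit [IsAlgClosed k] in
theorem frob_sub (X Y : k[X]) : X ^ (p ^ a * m) - Y ^ (p ^ a * m) = (X ^ m - Y ^ m) ^ (p ^ a) := by
  rw [sub_pow_char_pow, ← pow_mul, ← pow_mul, mul_comm m]

/-- `(X' - Y') * B ^ (q m - 1) = (X ^ m - Y ^ m) ^ q` -/
theorem diamond (ha : 1 ≤ a) (hm : 1 ≤ m) (hc : c ≠ 0) {P Q : RatFunc k}
    (hP : P ∈ periodicPts (uni (p ^ a * m) c)) (hQ : Q ∈ periodicPts (uni (p ^ a * m) c)) :
    ((uni (p ^ a * m) c P).num - (uni (p ^ a * m) c Q).num) * P.denom ^ (p ^ a * m - 1) =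
      (P.num ^ m - Q.num ^ m) ^ (p ^ a) := by
  have hd : 2 ≤ p ^ a * m := two_le_d ha hm
  have h1 := diamond0 hd hc hP
  have h2 := diamond0 hd hc hQ
  rw [← den_eq hd hc hP hQ] at h2
  rw [sub_mul, h1, h2, ← frob_sub]
  ring

/-- distinct periodic points do not collide at finite places which are no poles of `c` -/
theorem no_collision (ha : 1 ≤ a) (hm : 1 ≤ m) (hc : c ≠ 0) {P Q : RatFunc k}
    (hP : P ∈ periodicPts (uni (p ^ a * m) c)) (hQ : Q ∈ periodicPts (uni (p ^ a * m) c))
    (hne : P ≠ Q) {γ : k} (hγ : P.denom.eval γ ≠ 0) : (P.num - Q.num).eval γ ≠ 0 := by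
  intro h0
  have hd : 2 ≤ p ^ a * m := two_le_d ha hm
  have hq : 2 ≤ p ^ a := by
    have := two_le_d (p := p) (m := 1) ha le_rfl
    simpa using this
  set f := uni (p ^ a * m) c with hf
  have key : ∀ n : ℕ, (Polynomial.X - C γ) ^ ((p ^ a) ^ n) ∣ (f^[n] P).num - (f^[n] Q).num := by
    intro n
    induction n with
    | zero =>
      simp only [pow_zero, pow_one, iterate_zero, id_eq]
      exact dvd_iff_isRoot.2 h0
    | succ n ih =>
      rw [iterate_succ_apply', iterate_succ_apply']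
      have hPn := iter_mem hP n
      have hQn := iter_mem hQ n
      have hdi := diamond ha hm hc hPn hQn
      rw [← hf] at hdi hPn hQn
      have hden : (f^[n] P).denom = P.denom := den_eq hd hc hPn hP
      have h1 : (Polynomial.X - C γ) ^ ((p ^ a) ^ (n + 1)) ∣
          ((f^[n] P).num ^ m - (f^[n] Q).num ^ m) ^ (p ^ a) := by
        rw [pow_succ (p ^ a) n, pow_mul]
        exact pow_dvd_pow_of_dvd (ih.trans (sub_dvd_pow_sub_pow _ _ m)) _
      rw [← hdi, hden] at h1
      have hcop : IsCoprime ((Polynomial.X - C γ) ^ ((p ^ a) ^ (n + 1)))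
          (P.denom ^ (p ^ a * m - 1)) := by
        apply IsCoprime.pow
        refine (irreducible_X_sub_C γ).coprime_iff_not_dvd.2 ?_
        rw [dvd_iff_isRoot]
        exact hγ
      exact hcop.dvd_of_dvd_mul_right h1
  obtain ⟨n1, hn1, hp1⟩ := id hP
  obtain ⟨n2, hn2, hp2⟩ := id hQ
  set D := (P.num - Q.num).natDegree with hD
  have hPN : f^[n1 * n2 * (D + 1)] P = P := by
    have := (hp1.mul_const n2).mul_const (D + 1)
    exact this
  have hQN : f^[n1 * n2 * (D + 1)] Q = Q := by
    have := (hp2.const_mul n1).mul_const (D + 1)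
    exact this
  have hk := key (n1 * n2 * (D + 1))
  rw [hPN, hQN] at hk
  have hnum := num_ne (den_eq hd hc hP hQ) hne
  have hle := natDegree_le_of_dvd hk hnum
  rw [natDegree_pow, natDegree_X_sub_C, mul_one] at hle
  have h3 : D + 1 ≤ n1 * n2 * (D + 1) :=
    Nat.le_mul_of_pos_left _ (Nat.mul_pos hn1 hn2)
  have h4 : n1 * n2 * (D + 1) < 2 ^ (n1 * n2 * (D + 1)) := Nat.lt_two_pow_self
  have h5 : 2 ^ (n1 * n2 * (D + 1)) ≤ (p ^ a) ^ (n1 * n2 * (D + 1)) :=
    Nat.pow_le_pow_left hq _
  omega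

omit [IsAlgClosed k] [Fact p.Prime] [CharP k p] in
theorem natDegree_pow_sub {b : ℕ} (hm : 1 ≤ m) {X Y : k[X]} (hX : X.natDegree ≤ b)
    (hY : Y.natDegree ≤ b) :
    (X ^ m - Y ^ m).natDegree ≤ (X - Y).natDegree + (m - 1) * b := by
  rw [← (Commute.all X Y).mul_geom_sum₂]
  refine natDegree_mul_le.trans (Nat.add_le_add_left ?_ _)
  apply natDegree_sum_le_of_forall_le
  intro i hi
  rw [Finset.mem_range] at hi
  refine natDegree_mul_le.trans ?_
  calc (X ^ i).natDegree + (Y ^ (m - 1 - i)).natDegree ≤ i * b + (m - 1 - i) * b :=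
        Nat.add_le_add (natDegree_pow_le.trans (Nat.mul_le_mul_left _ hX))
          (natDegree_pow_le.trans (Nat.mul_le_mul_left _ hY))
    _ = (m - 1) * b := by rw [← Nat.add_mul]; congr 1; omega

/-- ... nor at infinity -/
theorem no_collision_inf (ha : 1 ≤ a) (hm : 1 ≤ m) (hc : c ≠ 0)
    (hcd : c.num.natDegree ≤ c.denom.natDegree) {P Q : RatFunc k}
    (hP : P ∈ periodicPts (uni (p ^ a * m) c)) (hQ : Q ∈ periodicPts (uni (p ^ a * m) c))
    (hne : P ≠ Q) : P.denom.natDegree ≤ (P.num - Q.num).natDegree := by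
  by_contra h0
  push Not at h0
  have hd : 2 ≤ p ^ a * m := two_le_d ha hm
  have hq : 2 ≤ p ^ a := by
    have := two_le_d (p := p) (m := 1) ha le_rfl
    simpa using this
  set f := uni (p ^ a * m) c with hf
  set b := P.denom.natDegree with hb
  have key : ∀ n : ℕ, ((f^[n] P).num - (f^[n] Q).num).natDegree + (p ^ a) ^ n ≤ b := by
    intro n
    induction n with
    | zero =>
      simp only [pow_zero, iterate_zero, id_eq]
      exact h0
    | succ n ih =>
      rw [iterate_succ_apply', iterate_succ_apply']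
      have hPn := iter_mem hP n
      have hQn := iter_mem hQ n
      have hdi := diamond ha hm hc hPn hQn
      have hne' := iter_ne hP hQ hne (n + 1)
      rw [iterate_succ_apply', iterate_succ_apply'] at hne'
      have hnum := num_ne (den_eq hd hc (next_mem hPn) (next_mem hQn)) hne'
      rw [← hf] at hdi hPn hQn hnum
      have hden : (f^[n] P).denom = P.denom := den_eq hd hc hPn hP
      have hden2 : (f^[n] Q).denom = P.denom := den_eq hd hc hQn hP
      have hX : (f^[n] P).num.natDegree ≤ b := by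
        rw [hb, ← hden]; exact deg_le hd hc hcd hPn
      have hY : (f^[n] Q).num.natDegree ≤ b := by
        rw [hb, ← hden2]; exact deg_le hd hc hcd hQn
      have h1 := congrArg natDegree hdi
      rw [natDegree_mul hnum (pow_ne_zero _ (RatFunc.denom_ne_zero _)), natDegree_pow,
        natDegree_pow, hden, ← hb] at h1
      have h2 := natDegree_pow_sub hm hX hY
      set D := ((f^[n] P).num - (f^[n] Q).num).natDegree
      set D' := ((f (f^[n] P)).num - (f (f^[n] Q)).num).natDegree
      set M := ((f^[n] P).num ^ m - (f^[n] Q).num ^ m).natDegree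
      have h3 : p ^ a * M ≤ p ^ a * (D + (m - 1) * b) := Nat.mul_le_mul_left _ h2
      have h4 : (p ^ a * m - 1) * b + b = p ^ a * m * b := by
        rw [← Nat.succ_mul]; congr 1; omega
      have h5 : p ^ a * ((m - 1) * b) + p ^ a * b = p ^ a * m * b := by
        rw [← Nat.mul_add, ← Nat.succ_mul, mul_assoc]
        congr 3
        omega
      have h6 : p ^ a * (D + (p ^ a) ^ n) ≤ p ^ a * b := Nat.mul_le_mul_left _ ih
      rw [Nat.mul_add] at h3 h6
      rw [pow_succ (p ^ a) n, mul_comm ((p ^ a) ^ n)]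
      omega
  obtain ⟨n1, hn1, hp1⟩ := id hP
  have h1 := key b
  have h4 : b < 2 ^ b := Nat.lt_two_pow_self
  have h5 : 2 ^ b ≤ (p ^ a) ^ b := Nat.pow_le_pow_left hq _
  omega

/-- the derivative of the numerator of `c` -/
theorem deriv_c (hpm : 1 ≤ a) (hm : 1 ≤ m) (hc : c ≠ 0) {P : RatFunc k}
    (hP : P ∈ periodicPts (uni (p ^ a * m) c)) :
    derivative c.num = P.denom ^ (p ^ a * m - 2) *
      (derivative (uni (p ^ a * m) c P).num * P.denom -
        (uni (p ^ a * m) c P).num * derivative P.denom) := by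
  have hd : 2 ≤ p ^ a * m := two_le_d hpm hm
  have h := congrArg derivative (diamond0 hd hc hP)
  have hd0 : ((p ^ a * m : ℕ) : k) = 0 := by
    rw [CharP.cast_eq_zero_iff k p]
    exact (dvd_pow_self p (by omega)).mul_right m
  have hd1 : ((p ^ a * m - 1 : ℕ) : k) = -1 := by
    rw [Nat.cast_sub (by omega), hd0]; simp
  rw [derivative_add, derivative_pow, derivative_mul, derivative_pow, hd0, hd1] at h
  have h2 : derivative c.num = derivative (uni (p ^ a * m) c P).num * P.denom ^ (p ^ a * m - 1) +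
      (uni (p ^ a * m) c P).num * (C (-1) * P.denom ^ (p ^ a * m - 1 - 1) * derivative P.denom) := by
    rw [h]; simp
  have h3 : P.denom ^ (p ^ a * m - 1) = P.denom ^ (p ^ a * m - 2) * P.denom := by
    rw [← pow_succ]; congr 1; omega
  have h4 : p ^ a * m - 1 - 1 = p ^ a * m - 2 := by omega
  rw [h2, h3, h4]
  simp only [C_neg, C_1]
  ring

theorem unique_of_deriv (ha : 1 ≤ a) (hm : 3 ≤ m) (hpm : ¬ p ∣ m) (hc : c ≠ 0)
    (hcd : c.num.natDegree ≤ c.denom.natDegree) (hc1 : 1 ≤ c.denom.natDegree)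
    (hder : derivative c.num ≠ 0) {P Q : RatFunc k}
    (hP : P ∈ periodicPts (uni (p ^ a * m) c)) (hQ : Q ∈ periodicPts (uni (p ^ a * m) c)) :
    P = Q := by
  by_contra hne
  have hm1 : 1 ≤ m := by omega
  have hd : 2 ≤ p ^ a * m := two_le_d ha hm1
  set f := uni (p ^ a * m) c with hf
  -- `P' = f P` etc. are images of periodic points
  have hP1 := next_mem hP
  have hQ1 := next_mem hQ
  rw [← hf] at hP1 hQ1
  have hne1 : f P ≠ f Q := fun h => hne ((bijOn_periodicPts f).injOn hP hQ h)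
  have hne2 : f (f P) ≠ f (f Q) := fun h => hne1 ((bijOn_periodicPts f).injOn hP1 hQ1 h)
  set X := (f P).num with hX
  set Y := (f Q).num with hY
  set B := (f P).denom with hB
  have hBQ : (f Q).denom = B := den_eq hd hc hQ1 hP1
  have hBP : P.denom = B := den_eq hd hc hP hP1
  have hB0 : B ≠ 0 := RatFunc.denom_ne_zero _
  have hEB : B ^ (p ^ a * m) = c.denom := den_c hd hc hP1
  have hB1 : 1 ≤ B.natDegree := by
    rcases Nat.eq_zero_or_pos B.natDegree with h0 | h0
    · rw [← hEB, natDegree_pow, h0] at hc1; omega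
    · exact h0
  have hcopX : IsCoprime X B := (f P).isCoprime_num_denom
  have hcopY : IsCoprime Y B := by rw [← hBQ]; exact (f Q).isCoprime_num_denom
  have hne0 : ∀ Z : k[X], IsCoprime Z B → Z ≠ 0 := by
    intro Z hZ h0
    rw [h0, isCoprime_zero_left] at hZ
    have := natDegree_eq_zero_of_isUnit hZ
    omega
  have hX0 := hne0 X hcopX
  have hY0 := hne0 Y hcopY
  have hXY : X - Y ≠ 0 := num_ne (den_eq hd hc hP1 hQ1) hne1
  have hXdeg : X.natDegree ≤ B.natDegree := deg_le hd hc hcd hP1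
  have hYdeg : Y.natDegree ≤ B.natDegree := by rw [← hBQ]; exact deg_le hd hc hcd hQ1
  have hinf : B.natDegree ≤ (X - Y).natDegree := no_collision_inf ha hm1 hc hcd hP1 hQ1 hne1
  have hmax : X.natDegree = B.natDegree ∨ Y.natDegree = B.natDegree := by
    have := natDegree_sub_le X Y
    rcases le_total X.natDegree Y.natDegree with h | h
    · rw [max_eq_right h] at this; right; omega
    · rw [max_eq_left h] at this; left; omega
  have hXYcop : IsCoprime X Y := by
    rw [Polynomial.isCoprime_iff_aeval_ne_zero_of_isAlgClosed k k X Y]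
    intro γ
    by_contra hcon
    push Not at hcon
    obtain ⟨h1, h2⟩ := hcon
    rw [coe_aeval_eq_eval] at h1 h2
    by_cases hγ : B.eval γ = 0
    · obtain ⟨u, v, huv⟩ := hcopX
      have := congrArg (Polynomial.eval γ) huv
      rw [eval_add, eval_mul, eval_mul, h1, hγ] at this
      simp at this
    · refine no_collision ha hm1 hc hP1 hQ1 hne1 (γ := γ) hγ ?_
      rw [eval_sub, h1, h2, sub_zero]
  have hdi := diamond ha hm1 hc hP1 hQ1
  rw [← hf] at hdi
  have hnum2 : (f (f P)).num - (f (f Q)).num ≠ 0 :=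
    num_ne (den_eq hd hc (next_mem hP1) (next_mem hQ1)) hne2
  have hZ : X ^ m - Y ^ m ≠ 0 := by
    intro h0
    rw [← hX, ← hY, h0, zero_pow (pow_ne_zero _ (Fact.out : p.Prime).ne_zero)] at hdi
    rcases mul_eq_zero.1 hdi with h | h
    · exact hnum2 h
    · exact pow_ne_zero _ hB0 h
  have hroots : ∀ γ : k, (X ^ m - Y ^ m).eval γ = 0 → B.eval γ = 0 := by
    intro γ hγ
    by_contra hB'
    have h1 := congrArg (Polynomial.eval γ) hdi
    rw [eval_pow, ← hX, ← hY, hγ, zero_pow (pow_ne_zero _ (Fact.out : p.Prime).ne_zero), eval_mul, eval_pow] at h1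
    rcases mul_eq_zero.1 h1 with h | h
    · refine no_collision ha hm1 hc (next_mem hP1) (next_mem hQ1) hne2 (γ := γ) ?_ h
      rw [den_eq hd hc (next_mem hP1) hP1]
      exact hB'
    · exact hB' ((pow_eq_zero_iff (by omega)).1 h)
  have hmk : (m : k) ≠ 0 := by
    intro h0
    exact hpm ((CharP.cast_eq_zero_iff k p m).1 h0)
  have hder0 : ∀ Z : k[X], Z ≠ 0 → derivative (Z ^ m) = 0 → derivative Z = 0 := by
    intro Z hZ0 h
    rw [derivative_pow] at h
    rcases mul_eq_zero.1 h with h | h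
    · rcases mul_eq_zero.1 h with h | h
      · exact absurd (C_eq_zero.1 h) hmk
      · exact absurd h (pow_ne_zero _ hZ0)
    · exact h
  refine mason hm hX0 hY0 hB0 hXdeg hYdeg hmax hXYcop hZ hroots ?_
  rintro ⟨hdX, hdY⟩
  have h1 := hder0 X hX0 hdX
  have h2 := hder0 Y hY0 hdY
  have e1 := deriv_c ha hm1 hc hP
  have e2 := deriv_c ha hm1 hc hQ
  rw [← hf, ← hX, h1, hBP] at e1
  rw [← hf, ← hY, h2, den_eq hd hc hQ hP, hBP] at e2
  have e3 : B ^ (p ^ a * m - 2) * ((X - Y) * derivative B) = 0 := by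
    have := e1.symm.trans e2
    linear_combination (-1 : k[X]) * this
  rcases mul_eq_zero.1 e3 with h | h
  · exact pow_ne_zero _ hB0 h
  · rcases mul_eq_zero.1 h with h | h
    · exact hXY h
    · rw [h] at e1
      apply hder
      rw [e1]
      ring

end

end Pool.Agent.H987R3
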