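import Mathlib
import Pool.Agent.H987R3.UniC
set_option autoImplicit false

/-!
At most one periodic point, any non-constant `c` (algebraically closed constant field).
-/

namespace Pool.Agent.H987R3
open Polynomial Function

variable {k : Type*} [Field k]

theorem num_denom_of_coprime {A B : k[X]} (h : IsCoprime A B) (hB : B.Monic) {z : RatFunc k}
    (hz : z = algebraMap k[X] (RatFunc k) A / algebraMap k[X] (RatFunc k) B) :
    z.num = A ∧ z.denom = B := by
  have h1 : algebraMap k[X] (RatFunc k) B ≠ 0 :=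
    (map_ne_zero_iff _ (RatFunc.algebraMap_injective k)).2 hB.ne_zero
  have h2 : algebraMap k[X] (RatFunc k) z.denom ≠ 0 :=
    (map_ne_zero_iff _ (RatFunc.algebraMap_injective k)).2 z.denom_ne_zero
  have h3 : z.num * B = A * z.denom := by
    apply RatFunc.algebraMap_injective k
    rw [map_mul, map_mul]
    rw [← div_eq_div_iff h2 h1, RatFunc.num_div_denom, hz]
  have h4 : B ∣ z.denom := by
    have : B ∣ A * z.denom := h3 ▸ Dvd.intro_left _ rfl
    exact h.symm.dvd_of_dvd_mul_left this
  have h5 : z.denom ∣ B := by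
    have : z.denom ∣ z.num * B := h3 ▸ Dvd.intro_left _ rfl
    exact z.isCoprime_num_denom.symm.dvd_of_dvd_mul_left this
  have h6 : z.denom = B := eq_of_monic_of_associated z.monic_denom hB
    (associated_of_dvd_dvd h5 h4)
  refine ⟨?_, h6⟩
  rw [h6] at h3
  exact mul_right_cancel₀ hB.ne_zero h3

section
variable [IsAlgClosed k] {p : ℕ} [Fact p.Prime] [CharP k p] {a m : ℕ}

omit [IsAlgClosed k] in
theorem root_periodic (ha : 1 ≤ a) {c c1 : RatFunc k} (hc : c = c1 ^ p) {P : RatFunc k}
    (hP : P ∈ periodicPts (uni (p ^ a * m) c)) :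
    ∃ R ∈ periodicPts (uni (p ^ a * m) c1), R ^ p = P := by
  have : CharP (RatFunc k) p := charP_of_injective_algebraMap (algebraMap k (RatFunc k)).injective p
  obtain ⟨n, hn, hP⟩ := hP
  obtain ⟨j, rfl⟩ : ∃ j, n = j + 1 := ⟨n - 1, by omega⟩
  have hd : p ^ a * m = (p ^ (a - 1) * m) * p := by
    obtain ⟨b, rfl⟩ : ∃ b, a = b + 1 := ⟨a - 1, by omega⟩
    simp only [Nat.add_sub_cancel]
    ring
  have hR : (((uni (p ^ a * m) c)^[j] P) ^ (p ^ (a - 1) * m) + c1) ^ p = P := by
    have h1 : uni (p ^ a * m) c ((uni (p ^ a * m) c)^[j] P) = P := by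
      have := iterate_succ_apply' (uni (p ^ a * m) c) j P
      rw [← this]; exact hP
    have h2 : uni (p ^ a * m) c ((uni (p ^ a * m) c)^[j] P) =
        ((uni (p ^ a * m) c)^[j] P) ^ (p ^ a * m) + c := rfl
    rw [add_pow_char, ← pow_mul, ← hd, ← hc, ← h2, h1]
  refine ⟨_, ⟨j + 1, hn, ?_⟩, hR⟩
  set R := ((uni (p ^ a * m) c)^[j] P) ^ (p ^ (a - 1) * m) + c1 with hRdef
  have hsemi : Semiconj (fun z : RatFunc k => z ^ p) (uni (p ^ a * m) c1) (uni (p ^ a * m) c) := by
    intro z
    change (z ^ (p ^ a * m) + c1) ^ p = (z ^ p) ^ (p ^ a * m) + c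
    rw [add_pow_char, hc, ← pow_mul, ← pow_mul, mul_comm p]
  have h3 := (hsemi.iterate_right (j + 1)) R
  change ((uni (p ^ a * m) c1)^[j + 1] R) ^ p = (uni (p ^ a * m) c)^[j + 1] (R ^ p) at h3
  rw [hR] at h3
  have h4 : (uni (p ^ a * m) c)^[j + 1] P = P := hP
  rw [h4, ← hR] at h3
  exact frobenius_inj (RatFunc k) p h3

theorem unique_aux (ha : 1 ≤ a) (hm : 3 ≤ m) (hpm : ¬ p ∣ m) (N : ℕ) :
    ∀ c : RatFunc k, c.denom.natDegree ≤ N → c.num.natDegree ≤ c.denom.natDegree →
    1 ≤ c.denom.natDegree → ∀ P ∈ periodicPts (uni (p ^ a * m) c),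
    ∀ Q ∈ periodicPts (uni (p ^ a * m) c), P = Q := by
  induction N with
  | zero => intro c h1 _ h3; omega
  | succ N ih =>
    intro c hN hcd hc1 P hP Q hQ
    have hc : c ≠ 0 := by
      intro h0
      rw [h0, RatFunc.denom_zero, natDegree_one] at hc1
      omega
    by_cases hder : derivative c.num = 0
    · have hd : 2 ≤ p ^ a * m := two_le_d ha (by omega)
      have hp2 := (Fact.out : p.Prime).two_le
      obtain ⟨C1, hC1⟩ := exists_pth_root (p := p) hder
      set B := P.denom with hB
      have hBm : B.Monic := P.monic_denom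
      have hE : B ^ (p ^ a * m) = c.denom := den_c hd hc hP
      have hdd : p ^ a * m = (p ^ (a - 1) * m) * p := by
        obtain ⟨b, rfl⟩ : ∃ b, a = b + 1 := ⟨a - 1, by omega⟩
        simp only [Nat.add_sub_cancel]
        ring
      set E1 := B ^ (p ^ (a - 1) * m) with hE1
      have hE1p : E1 ^ p = c.denom := by rw [hE1, ← pow_mul, ← hdd, hE]
      have hcop : IsCoprime C1 E1 := by
        have h1 := c.isCoprime_num_denom
        rw [← hC1, ← hE1p] at h1
        exact (IsCoprime.pow_iff (by omega) (by omega)).1 h1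
      set c1 : RatFunc k := algebraMap k[X] (RatFunc k) C1 / algebraMap k[X] (RatFunc k) E1
        with hc1def
      have hcc1 : c = c1 ^ p := by
        rw [hc1def, div_pow, ← map_pow, ← map_pow, hC1, hE1p, RatFunc.num_div_denom]
      obtain ⟨hnum, hden⟩ := num_denom_of_coprime hcop (hBm.pow _) hc1def
      have hdeg1 : c.denom.natDegree = p * c1.denom.natDegree := by
        rw [hden, ← hE1p, natDegree_pow]
      have hdeg2 : c.num.natDegree = p * c1.num.natDegree := by
        rw [hnum, ← hC1, natDegree_pow]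
      obtain ⟨R, hR, hRP⟩ := root_periodic ha hcc1 hP
      obtain ⟨S, hS, hSQ⟩ := root_periodic ha hcc1 hQ
      have h1 : 1 ≤ c1.denom.natDegree := by
        rcases Nat.eq_zero_or_pos c1.denom.natDegree with h0 | h0
        · rw [h0] at hdeg1; omega
        · exact h0
      have h2 : c1.num.natDegree ≤ c1.denom.natDegree := by
        rw [hdeg1, hdeg2] at hcd
        exact Nat.le_of_mul_le_mul_left hcd (by omega)
      have h3 : c1.denom.natDegree ≤ N := by
        have : 2 * c1.denom.natDegree ≤ p * c1.denom.natDegree := Nat.mul_le_mul_right _ hp2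
        omega
      rw [← hRP, ← hSQ, ih c1 h3 h2 h1 R hR S hS]
    · exact unique_of_deriv ha hm hpm hc hcd hc1 hder hP hQ

end

end Pool.Agent.H987R3
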