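import Mathlib
import Pool.Agent.H987R3.UniD
set_option autoImplicit false

/-!
Moving a non-pole of `c` to infinity.
-/

namespace Pool.Agent.H987R3
open Polynomial Function

variable {k : Type*} [Field k]

/-- `t ↦ t₀ + 1 / t` on polynomials -/
noncomputable def phi (t0 : k) : k[X] →ₐ[k] RatFunc k :=
  aeval (algebraMap k (RatFunc k) t0 + (RatFunc.X)⁻¹)

theorem phi_eq (t0 : k) (F : k[X]) :
    phi t0 F * RatFunc.X ^ F.natDegree =
      algebraMap k[X] (RatFunc k) (taylor t0 F).reverse := by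
  have hX : (RatFunc.X : RatFunc k) ≠ 0 := RatFunc.X_ne_zero
  have h1 : phi t0 F = aeval ((RatFunc.X : RatFunc k)⁻¹) (taylor t0 F) := by
    rw [taylor_apply, aeval_comp, phi]
    congr 2
    simp [add_comm]
  letI : Invertible ((RatFunc.X : RatFunc k)⁻¹) := invertibleOfNonzero (inv_ne_zero hX)
  have h2 := eval₂_reverse_mul_pow (algebraMap k (RatFunc k)) ((RatFunc.X : RatFunc k)⁻¹)
    (taylor t0 F)
  rw [natDegree_taylor, invOf_eq_inv, inv_inv, ← aeval_def, ← aeval_def] at h2
  rw [h1, ← h2, mul_assoc, ← mul_pow, inv_mul_cancel₀ hX, one_pow, mul_one]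
  have h3 : (RatFunc.X : RatFunc k) = algebraMap k[X] (RatFunc k) Polynomial.X :=
    RatFunc.algebraMap_X.symm
  rw [h3, aeval_algebraMap_apply, aeval_X_left_apply]

theorem phi_ne (t0 : k) {F : k[X]} (hF : F ≠ 0) : phi t0 F ≠ 0 := by
  intro h0
  have h := phi_eq t0 F
  rw [h0, zero_mul, eq_comm, map_eq_zero_iff _ (RatFunc.algebraMap_injective k),
    reverse_eq_zero] at h
  have := (taylor_injective t0) (h.trans (map_zero (taylor t0)).symm)
  exact hF this

theorem phi_deg (t0 : k) {F : k[X]} (hF : F ≠ 0) :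
    (phi t0 F).intDegree + F.natDegree = (taylor t0 F).reverse.natDegree := by
  have h := congrArg RatFunc.intDegree (phi_eq t0 F)
  have hX : (RatFunc.X : RatFunc k) ≠ 0 := RatFunc.X_ne_zero
  rw [RatFunc.intDegree_mul (phi_ne t0 hF) (pow_ne_zero _ hX), RatFunc.intDegree_polynomial] at h
  have h2 : ∀ n : ℕ, ((RatFunc.X : RatFunc k) ^ n).intDegree = n := by
    intro n
    rw [← RatFunc.algebraMap_X, ← map_pow, RatFunc.intDegree_polynomial, natDegree_X_pow]
  rw [h2] at h
  exact h

theorem phi_le (t0 : k) : nonZeroDivisors k[X] ≤ (nonZeroDivisors (RatFunc k)).comap (phi t0) := by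
  intro F hF
  rw [Submonoid.mem_comap, mem_nonZeroDivisors_iff_ne_zero]
  exact phi_ne t0 (nonZeroDivisors.ne_zero hF)

/-- the substitution `t ↦ t₀ + 1 / t` -/
noncomputable def sigma (t0 : k) : RatFunc k →ₐ[k] RatFunc k :=
  RatFunc.liftAlgHom (phi t0) (phi_le t0)

theorem sigma_apply (t0 : k) (z : RatFunc k) : sigma t0 z = phi t0 z.num / phi t0 z.denom := by
  rw [sigma, RatFunc.liftAlgHom_apply]

theorem sigma_deg (t0 : k) {c : RatFunc k} (hc : c ≠ 0) (h : c.denom.eval t0 ≠ 0) :
    (sigma t0 c).num.natDegree ≤ (sigma t0 c).denom.natDegree := by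
  have hC := RatFunc.num_ne_zero hc
  have hE := c.denom_ne_zero
  have h1 : (sigma t0 c).intDegree = (phi t0 c.num).intDegree - (phi t0 c.denom).intDegree := by
    rw [sigma_apply, RatFunc.intDegree_div (phi_ne t0 hC) (phi_ne t0 hE)]
  have h2 := phi_deg t0 hC
  have h3 := phi_deg t0 hE
  have h4 : (taylor t0 c.denom).reverse.natDegree = c.denom.natDegree := by
    rw [reverse_natDegree, natDegree_taylor]
    have : (taylor t0 c.denom).natTrailingDegree = 0 := by
      rw [natTrailingDegree_eq_zero]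
      right
      rw [taylor_coeff_zero]
      exact h
    rw [this, Nat.sub_zero]
  have h5 := reverse_natDegree_le (taylor t0 c.num)
  rw [natDegree_taylor] at h5
  have h6 : (sigma t0 c).intDegree ≤ 0 := by
    rw [h4] at h3
    omega
  rw [RatFunc.intDegree] at h6
  omega

theorem const_of_deg {z : RatFunc k} (h1 : z.num.natDegree ≤ z.denom.natDegree)
    (h2 : z.denom.natDegree = 0) : ∃ x : k, z = RatFunc.C x := by
  have h3 : z.denom = 1 := by
    have := z.monic_denom
    exact this.natDegree_eq_zero.1 h2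
  have h4 : z.num = C (z.num.coeff 0) := eq_C_of_natDegree_eq_zero (by omega)
  refine ⟨z.num.coeff 0, ?_⟩
  rw [← RatFunc.num_div_denom z, h3, map_one, div_one, ← RatFunc.algebraMap_C]
  conv_lhs => rw [h4]
  simp

section
variable [IsAlgClosed k] {p : ℕ} [Fact p.Prime] [CharP k p] {a m : ℕ}

theorem unique_closed (ha : 1 ≤ a) (hm : 3 ≤ m) (hpm : ¬ p ∣ m) {c : RatFunc k}
    (hc : ∀ x : k, c ≠ RatFunc.C x) {P Q : RatFunc k} (hP : P ∈ periodicPts (uni (p ^ a * m) c))
    (hQ : Q ∈ periodicPts (uni (p ^ a * m) c)) : P = Q := by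
  have hc0 : c ≠ 0 := by
    have := hc 0
    rwa [map_zero] at this
  have : Infinite k := IsAlgClosed.instInfinite
  obtain ⟨t0, ht0⟩ : ∃ t0 : k, c.denom.eval t0 ≠ 0 := by
    by_contra hcon
    push Not at hcon
    exact c.denom_ne_zero (Polynomial.funext (fun r => by rw [hcon r, eval_zero]))
  set c' := sigma t0 c with hc'
  have h1 := sigma_deg t0 hc0 ht0
  rw [← hc'] at h1
  have hinj : Injective (sigma t0 : RatFunc k → RatFunc k) := (sigma t0).toRingHom.injective
  have h2 : 1 ≤ c'.denom.natDegree := by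
    rcases Nat.eq_zero_or_pos c'.denom.natDegree with h0 | h0
    · exfalso
      obtain ⟨x, hx⟩ := const_of_deg h1 h0
      apply hc x
      apply hinj
      rw [← hc', hx, ← RatFunc.algebraMap_eq_C]
      exact ((sigma t0).commutes x).symm
    · exact h0
  have hsemi : Semiconj (sigma t0) (uni (p ^ a * m) c) (uni (p ^ a * m) c') := by
    intro z
    change sigma t0 (z ^ (p ^ a * m) + c) = (sigma t0 z) ^ (p ^ a * m) + sigma t0 c
    rw [map_add, map_pow]
  have hmap : ∀ z ∈ periodicPts (uni (p ^ a * m) c),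
      sigma t0 z ∈ periodicPts (uni (p ^ a * m) c') := by
    rintro z ⟨n, hn, hz⟩
    refine ⟨n, hn, ?_⟩
    have h3 := (hsemi.iterate_right n) z
    have h4 : (uni (p ^ a * m) c)^[n] z = z := hz
    rw [h4] at h3
    exact h3.symm
  exact hinj (unique_aux ha hm hpm c'.denom.natDegree c' le_rfl h1 h2 _ (hmap P hP) _ (hmap Q hQ))

end

end Pool.Agent.H987R3
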