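import Mathlib
import Pool.Agent.H987R3.UniE
set_option autoImplicit false

/-!
Tails: `f P` is periodic for every preperiodic `P`.
-/

namespace Pool.Agent.H987R3
open Polynomial Function UniqueFactorizationMonoid

variable {k : Type*} [Field k]

section
variable [IsAlgClosed k] {p : ℕ} [Fact p.Prime] [CharP k p] {a m : ℕ}

theorem no_power (ha : 1 ≤ a) (hm : 2 ≤ m) (hpm : ¬ p ∣ m)
    (hnum : 2 * m ≤ (p ^ a * m - 1) * (m - 1)) (N : ℕ) :
    ∀ (A B W : k[X]) (κ : k), κ ≠ 0 → A ≠ 0 → B ≠ 0 → IsCoprime A B →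
    A.natDegree + B.natDegree ≤ N → 0 < A.natDegree + B.natDegree →
    W ^ m = A * (A ^ (p ^ a * m - 1) + C κ * B ^ (p ^ a * m - 1)) → False := by
  classical
  induction N with
  | zero => intro A B W κ _ _ _ _ h1 h2 _; omega
  | succ N ih =>
    intro A B W κ hκ hA hB hcop hN hpos hW
    have hd : 2 ≤ p ^ a * m := two_le_d ha (by omega)
    have hp2 := (Fact.out : p.Prime).two_le
    set D := p ^ a * m - 1 with hD
    have hD1 : 1 ≤ D := by omega
    set G := A ^ D + C κ * B ^ D with hG
    have hCκ : (C κ : k[X]) ≠ 0 := C_ne_zero.2 hκ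
    have hunitC : IsUnit (C κ : k[X]) := isUnit_C.2 hκ.isUnit
    have hAG : IsCoprime A G := by
      rw [hG]
      have h1 : A ^ D = A * A ^ (D - 1) := by rw [← pow_succ']; congr 1; omega
      rw [h1, add_comm]
      refine IsCoprime.add_mul_left_right ?_ _
      exact (isCoprime_mul_unit_left_right hunitC _ _).2 (hcop.pow_right)
    have hcopab : IsCoprime (A ^ D) (C κ * B ^ D) :=
      (isCoprime_mul_unit_left_right hunitC _ _).2 (hcop.pow)
    have hG0 : G ≠ 0 := by
      intro h0
      rw [h0] at hAG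
      have hu : IsUnit A := isCoprime_zero_right.1 hAG
      have h1 : C κ * B ^ D = - A ^ D := by
        rw [hG] at h0
        linear_combination h0
      rw [h1] at hcopab
      have h2 : IsUnit (C κ * B ^ D) := by rw [h1]; exact (hu.pow _).neg
      have h3 : IsUnit B := (isUnit_pow_iff (by omega)).1 (isUnit_of_mul_isUnit_right h2)
      have h4 := natDegree_eq_zero_of_isUnit hu
      have h5 := natDegree_eq_zero_of_isUnit h3
      omega
    have hW0 : W ≠ 0 := by
      intro h0
      rw [h0, zero_pow (by omega)] at hW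
      exact mul_ne_zero hA hG0 hW.symm
    obtain ⟨G1, hG1⟩ : ∃ G1 : k[X], Associated (G1 ^ m) G := by
      refine exists_associated_pow_of_mul_eq_pow' hAG.symm (c := W) ?_
      rw [hW, mul_comm]
    have hG10 : G1 ≠ 0 := by
      intro h0
      rw [h0, zero_pow (by omega)] at hG1
      exact hG0 (hG1.symm.eq_zero_iff.2 rfl)
    have hGdeg : G.natDegree = m * G1.natDegree := by
      rw [← natDegree_pow]
      exact (natDegree_eq_of_degree_eq (degree_eq_degree_of_associated hG1)).symm
    have hb0 : C κ * B ^ D ≠ 0 := mul_ne_zero hCκ (pow_ne_zero _ hB)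
    rcases Polynomial.abc (a := A ^ D) (b := C κ * B ^ D) (c := -G) (pow_ne_zero _ hA) hb0
      (neg_ne_zero.2 hG0) hcopab (by rw [hG]; ring) with ⟨h1, h2, -⟩ | ⟨h1, h2, -⟩
    · have hrad : radical (A ^ D * (C κ * B ^ D) * -G) ∣ A * B * G1 := by
        refine (radical_mul_dvd).trans (mul_dvd_mul ((radical_mul_dvd).trans (mul_dvd_mul ?_ ?_)) ?_)
        · rw [radical_pow _ (by omega)]; exact radical_dvd_self
        · rw [radical_mul_of_isUnit_left hunitC, radical_pow _ (by omega)]; exact radical_dvd_self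
        · rw [UniqueFactorizationDomain.radical_neg, ← radical_eq_of_associated hG1,
            radical_pow _ (by omega)]
          exact radical_dvd_self
      have hle := natDegree_le_of_dvd hrad (mul_ne_zero (mul_ne_zero hA hB) hG10)
      rw [natDegree_mul (mul_ne_zero hA hB) hG10, natDegree_mul hA hB] at hle
      rw [natDegree_pow] at h1
      rw [natDegree_C_mul hκ, natDegree_pow] at h2
      have h3 : G.natDegree ≤ max (D * A.natDegree) (D * B.natDegree) := by
        refine (natDegree_add_le _ _).trans ?_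
        rw [natDegree_pow, natDegree_C_mul hκ, natDegree_pow]
      rw [hGdeg] at h3
      set g := G1.natDegree
      set α := A.natDegree
      set β := B.natDegree
      set r := (radical (A ^ D * (C κ * B ^ D) * -G)).natDegree
      rcases le_total α β with hαβ | hαβ
      · rw [max_eq_right (Nat.mul_le_mul_left _ hαβ)] at h3
        have h4 : D * β + 1 ≤ 2 * β + g := by omega
        have h5 : m * (D * β + 1) ≤ m * (2 * β + g) := Nat.mul_le_mul_left _ h4
        have h6 : 2 * m * β ≤ D * (m - 1) * β := Nat.mul_le_mul_right _ hnum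
        have h7 : D * (m - 1) * β + D * β = m * (D * β) := by
          obtain ⟨m', rfl⟩ : ∃ m', m = m' + 1 := ⟨m - 1, by omega⟩
          simp only [Nat.add_sub_cancel]
          ring
        nlinarith
      · rw [max_eq_left (Nat.mul_le_mul_left _ hαβ)] at h3
        have h4 : D * α + 1 ≤ 2 * α + g := by omega
        have h5 : m * (D * α + 1) ≤ m * (2 * α + g) := Nat.mul_le_mul_left _ h4
        have h6 : 2 * m * α ≤ D * (m - 1) * α := Nat.mul_le_mul_right _ hnum
        have h7 : D * (m - 1) * α + D * α = m * (D * α) := by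
          obtain ⟨m', rfl⟩ : ∃ m', m = m' + 1 := ⟨m - 1, by omega⟩
          simp only [Nat.add_sub_cancel]
          ring
        nlinarith
    · have hd0 : ((p ^ a * m : ℕ) : k) = 0 := by
        rw [CharP.cast_eq_zero_iff k p]
        exact (dvd_pow_self p (by omega)).mul_right m
      have hDk : ((D : ℕ) : k) ≠ 0 := by
        rw [hD, Nat.cast_sub (by omega), hd0]; simp
      have hder0 : ∀ (n : ℕ) (Z : k[X]), ((n : ℕ) : k) ≠ 0 → Z ≠ 0 → derivative (Z ^ n) = 0 →
          derivative Z = 0 := by
        intro n Z hn hZ0 h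
        rw [derivative_pow] at h
        rcases mul_eq_zero.1 h with h | h
        · rcases mul_eq_zero.1 h with h | h
          · exact absurd (C_eq_zero.1 h) hn
          · exact absurd h (pow_ne_zero _ hZ0)
        · exact h
      have hA' := hder0 D A hDk hA h1
      have hB' : derivative B = 0 := by
        rw [derivative_C_mul] at h2
        rcases mul_eq_zero.1 h2 with h | h
        · exact absurd h hCκ
        · exact hder0 D B hDk hB h
      obtain ⟨A1, hA1⟩ := exists_pth_root (p := p) hA'
      obtain ⟨B1, hB1⟩ := exists_pth_root (p := p) hB'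
      obtain ⟨κ1, hκ1⟩ := IsAlgClosed.exists_pow_nat_eq κ (Fact.out : p.Prime).pos
      have hGp : A * G = (A1 * (A1 ^ D + C κ1 * B1 ^ D)) ^ p := by
        rw [mul_pow, add_pow_char, mul_pow, ← C_pow, hκ1, ← pow_mul, ← pow_mul, mul_comm D p,
          pow_mul, pow_mul, hA1, hB1]
      have hmk : ((m : ℕ) : k) ≠ 0 := by
        intro h0
        exact hpm ((CharP.cast_eq_zero_iff k p m).1 h0)
      have hW' : derivative W = 0 := by
        apply hder0 m W hmk hW0
        rw [hW, hGp, derivative_pow]
        simp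
      obtain ⟨W1, hW1⟩ := exists_pth_root (p := p) hW'
      have hW2 : W1 ^ m = A1 * (A1 ^ D + C κ1 * B1 ^ D) := by
        apply frobenius_inj k[X] p
        rw [frobenius_def, frobenius_def, ← hGp, ← hW, ← hW1, ← pow_mul, ← pow_mul, mul_comm]
      have hA10 : A1 ≠ 0 := by
        rintro rfl
        rw [zero_pow (by omega)] at hA1
        exact hA hA1.symm
      have hB10 : B1 ≠ 0 := by
        rintro rfl
        rw [zero_pow (by omega)] at hB1
        exact hB hB1.symm
      have hκ10 : κ1 ≠ 0 := by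
        rintro rfl
        rw [zero_pow (by omega)] at hκ1
        exact hκ hκ1.symm
      have hcop1 : IsCoprime A1 B1 := by
        rw [← hA1, ← hB1] at hcop
        exact (IsCoprime.pow_iff (by omega) (by omega)).1 hcop
      have e1 : A.natDegree = p * A1.natDegree := by rw [← hA1, natDegree_pow]
      have e2 : B.natDegree = p * B1.natDegree := by rw [← hB1, natDegree_pow]
      have e3 : A.natDegree + B.natDegree = p * (A1.natDegree + B1.natDegree) := by
        rw [e1, e2]; ring
      have e4 : 2 * (A1.natDegree + B1.natDegree) ≤ p * (A1.natDegree + B1.natDegree) :=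
        Nat.mul_le_mul_right _ hp2
      have e5 : 0 < A1.natDegree + B1.natDegree := by
        rcases Nat.eq_zero_or_pos (A1.natDegree + B1.natDegree) with h0 | h0
        · rw [h0] at e3; omega
        · exact h0
      exact ih A1 B1 W1 κ1 hκ10 hA10 hB10 hcop1 (by omega) e5 hW2

/-- `T ^ m = R ^ (q m) + κ R` has no solution with `R` non-constant -/
theorem no_power_rat (ha : 1 ≤ a) (hm : 2 ≤ m) (hpm : ¬ p ∣ m)
    (hnum : 2 * m ≤ (p ^ a * m - 1) * (m - 1)) {R T : RatFunc k} {κ : k} (hκ : κ ≠ 0)
    (hR : ∀ x : k, R ≠ RatFunc.C x) : T ^ m ≠ R ^ (p ^ a * m) + RatFunc.C κ * R := by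
  intro h
  have hd : 2 ≤ p ^ a * m := two_le_d ha (by omega)
  have hR0 : R ≠ 0 := by
    have := hR 0
    rwa [map_zero] at this
  set A := R.num with hA
  set B := R.denom with hB
  have hA0 : A ≠ 0 := RatFunc.num_ne_zero hR0
  have hB0 : B ≠ 0 := R.denom_ne_zero
  have hιB : algebraMap k[X] (RatFunc k) B ≠ 0 :=
    (map_ne_zero_iff _ (RatFunc.algebraMap_injective k)).2 hB0
  have hRAB : R = algebraMap k[X] (RatFunc k) A / algebraMap k[X] (RatFunc k) B :=
    (RatFunc.num_div_denom R).symm
  have key : (T * algebraMap k[X] (RatFunc k) B ^ (p ^ a)) ^ m =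
      algebraMap k[X] (RatFunc k) (A * (A ^ (p ^ a * m - 1) + C κ * B ^ (p ^ a * m - 1))) := by
    have e1 : ∀ Z : RatFunc k, Z ^ (p ^ a * m) = Z ^ (p ^ a * m - 1) * Z := by
      intro Z; rw [← pow_succ]; congr 1; omega
    rw [mul_pow, h, ← pow_mul, e1 R, e1 (algebraMap k[X] (RatFunc k) B), map_mul, map_add, map_mul,
      map_pow, map_pow, RatFunc.algebraMap_C, hRAB, div_pow]
    field_simp
  obtain ⟨W, hW⟩ : ∃ W : k[X], algebraMap k[X] (RatFunc k) W =
      T * algebraMap k[X] (RatFunc k) B ^ (p ^ a) := by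
    apply IsIntegrallyClosed.exists_algebraMap_eq_of_isIntegral_pow (R := k[X]) (n := m) (by omega)
    rw [key]
    exact isIntegral_algebraMap
  rw [← hW, ← map_pow] at key
  have key2 := RatFunc.algebraMap_injective k key
  refine no_power ha hm hpm hnum (A.natDegree + B.natDegree) A B W κ hκ hA0 hB0
    R.isCoprime_num_denom le_rfl ?_ key2
  rcases Nat.eq_zero_or_pos (A.natDegree + B.natDegree) with h0 | h0
  · exfalso
    obtain ⟨x, hx⟩ := const_of_deg (z := R) (by rw [← hA, ← hB]; omega) (by rw [← hB]; omega)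
    exact hR x hx
  · exact h0

omit [IsAlgClosed k] [Fact p.Prime] [CharP k p] in
theorem root_of_unity_const (hm : 1 ≤ m) {ζ : RatFunc k} (h : ζ ^ m = 1) :
    ∃ z : k, ζ = RatFunc.C z := by
  have h1 : ζ.num ^ m = ζ.denom ^ m := by
    apply RatFunc.algebraMap_injective k
    have h2 : algebraMap k[X] (RatFunc k) ζ.denom ≠ 0 :=
      (map_ne_zero_iff _ (RatFunc.algebraMap_injective k)).2 ζ.denom_ne_zero
    rw [map_pow, map_pow]
    rw [← RatFunc.num_div_denom ζ, div_pow, div_eq_one_iff_eq (pow_ne_zero _ h2)] at h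
    exact h
  have h3 : IsUnit ζ.denom := by
    have h4 : IsCoprime (ζ.num ^ m) (ζ.denom ^ m) := ζ.isCoprime_num_denom.pow
    rw [h1, isCoprime_self] at h4
    exact (isUnit_pow_iff (by omega)).1 h4
  have h5 : ζ.denom.natDegree = 0 := natDegree_eq_zero_of_isUnit h3
  have h6 : ζ.num.natDegree = 0 := by
    have := congrArg natDegree h1
    rw [natDegree_pow, natDegree_pow, h5, mul_zero] at this
    rcases Nat.mul_eq_zero.1 this with h | h
    · omega
    · exact h
  exact const_of_deg (by omega) h5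

omit [IsAlgClosed k] in
theorem frob_inj_rat {x y : RatFunc k} (h : x ^ (p ^ a * m) = y ^ (p ^ a * m)) : x ^ m = y ^ m := by
  have : CharP (RatFunc k) p := charP_of_injective_algebraMap (algebraMap k (RatFunc k)).injective p
  have h1 : (x ^ m - y ^ m) ^ (p ^ a) = 0 := by
    rw [sub_pow_char_pow, ← pow_mul, ← pow_mul, mul_comm m, h, sub_self]
  exact sub_eq_zero.1 (pow_eq_zero_iff (pow_ne_zero _ (Fact.out : p.Prime).ne_zero) |>.1 h1)

/-- an image `Q` which maps to a fixed point is that fixed point -/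
theorem tail_one (ha : 1 ≤ a) (hm : 2 ≤ m) (hpm : ¬ p ∣ m)
    (hnum : 2 * m ≤ (p ^ a * m - 1) * (m - 1)) {c : RatFunc k}
    (hc : ∀ x : k, c ≠ RatFunc.C x) {P T : RatFunc k} (hP : uni (p ^ a * m) c P = P)
    (hT : uni (p ^ a * m) c (uni (p ^ a * m) c T) = P) : uni (p ^ a * m) c T = P := by
  by_contra hne
  have : CharP (RatFunc k) p := charP_of_injective_algebraMap (algebraMap k (RatFunc k)).injective p
  have hp := (Fact.out : p.Prime)
  set Q := uni (p ^ a * m) c T with hQ
  have h1 : Q ^ m = P ^ m := by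
    apply frob_inj_rat (p := p) (a := a)
    have e1 : Q ^ (p ^ a * m) + c = P := hT
    have e2 : P ^ (p ^ a * m) + c = P := hP
    exact add_right_cancel (e1.trans e2.symm)
  have hP0 : P ≠ 0 := by
    rintro rfl
    rw [zero_pow (by omega)] at h1
    exact hne ((pow_eq_zero_iff (by omega)).1 h1)
  obtain ⟨z, hz⟩ := root_of_unity_const (m := m) (by omega) (ζ := Q / P)
    (by rw [div_pow, h1, div_self (pow_ne_zero _ hP0)])
  have hQz : Q = RatFunc.C z * P := by rw [← hz, div_mul_cancel₀ _ hP0]
  have hz1 : z - 1 ≠ 0 := by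
    intro h0
    have : z = 1 := sub_eq_zero.1 h0
    rw [this, map_one, one_mul] at hQz
    exact hne hQz
  obtain ⟨w, hw⟩ := IsAlgClosed.exists_pow_nat_eq ((z - 1)⁻¹) (pow_pos hp.pos a)
  have hw0 : w ≠ 0 := by
    rintro rfl
    rw [zero_pow (pow_ne_zero _ hp.ne_zero)] at hw
    exact inv_ne_zero hz1 hw.symm
  have h2 : RatFunc.C (z - 1) * P = (T ^ m - P ^ m) ^ (p ^ a) := by
    rw [sub_pow_char_pow, ← pow_mul, ← pow_mul, mul_comm m]
    have e1 : T ^ (p ^ a * m) + c = RatFunc.C z * P := hQz
    have e2 : P ^ (p ^ a * m) + c = P := hP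
    rw [map_sub, map_one]
    linear_combination e2 - e1
  set R := RatFunc.C w * (T ^ m - P ^ m) with hR
  have hRP : R ^ (p ^ a) = P := by
    rw [hR, mul_pow, ← h2, ← map_pow, hw, ← mul_assoc, ← map_mul, inv_mul_cancel₀ hz1, map_one,
      one_mul]
  have hCw : (RatFunc.C w : RatFunc k) ≠ 0 := (map_ne_zero_iff _ RatFunc.C_injective).2 hw0
  refine no_power_rat ha hm hpm hnum (R := R) (T := T) (κ := w⁻¹) (inv_ne_zero hw0) ?_ ?_
  · intro x hx
    apply hc (x ^ (p ^ a) - (x ^ (p ^ a)) ^ (p ^ a * m))
    have e2 : P ^ (p ^ a * m) + c = P := hP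
    rw [map_sub, map_pow, map_pow, map_pow, ← hx, hRP]
    linear_combination e2
  · rw [pow_mul, hRP, hR, ← mul_assoc, ← map_mul, inv_mul_cancel₀ hw0, map_one, one_mul]
    ring

end

end Pool.Agent.H987R3
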