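import Mathlib
import Pool.Agent.H987R3.UniF
set_option autoImplicit false

/-!
Preperiodic points, arbitrary constant field.
-/

namespace Pool.Agent.H987R3
open Polynomial Function

variable {k : Type*} [Field k] {p : ℕ} [Fact p.Prime] [CharP k p] {a m : ℕ}

theorem num_ok (ha : 1 ≤ a) (hm : 3 ≤ m) (p : ℕ) [Fact p.Prime] :
    2 * m ≤ (p ^ a * m - 1) * (m - 1) := by
  have hq : 2 ≤ p ^ a := by
    have := two_le_d (p := p) (m := 1) ha le_rfl
    simpa using this
  have h1 : 2 * m ≤ p ^ a * m := Nat.mul_le_mul_right _ hq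
  obtain ⟨m', rfl⟩ : ∃ m', m = m' + 1 := ⟨m - 1, by omega⟩
  have h2 : 2 * (m' + 1) - 1 ≤ p ^ a * (m' + 1) - 1 := Nat.sub_le_sub_right h1 1
  have h3 : (2 * (m' + 1) - 1) * m' ≤ (p ^ a * (m' + 1) - 1) * m' := Nat.mul_le_mul_right _ h2
  have h4 : 2 * (m' + 1) - 1 = 2 * m' + 1 := by omega
  rw [h4] at h3
  simp only [Nat.add_sub_cancel]
  nlinarith

theorem pre_closed [IsAlgClosed k] (ha : 1 ≤ a) (hm : 3 ≤ m) (hpm : ¬ p ∣ m) {c : RatFunc k}
    (hc : ∀ x : k, c ≠ RatFunc.C x) (n : ℕ) :
    ∀ P : RatFunc k, (uni (p ^ a * m) c)^[n] P ∈ periodicPts (uni (p ^ a * m) c) →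
    uni (p ^ a * m) c P ∈ periodicPts (uni (p ^ a * m) c) := by
  induction n with
  | zero => intro P hP; exact next_mem hP
  | succ n ih =>
    intro P hP
    rcases Nat.eq_zero_or_pos n with h0 | h0
    · subst h0; exact hP
    · rw [iterate_succ_apply] at hP
      have h1 := ih _ hP
      have h2 : uni (p ^ a * m) c (uni (p ^ a * m) c (uni (p ^ a * m) c P)) =
          uni (p ^ a * m) c (uni (p ^ a * m) c P) :=
        unique_closed ha hm hpm hc (next_mem h1) h1
      have h3 := tail_one ha (by omega) hpm (num_ok ha hm p) hc h2 rfl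
      rw [h3]
      exact h1

section general

/-- the embedding `k(t) → k̄(t)` -/
noncomputable def tau (k : Type*) [Field k] : RatFunc k →+* RatFunc (AlgebraicClosure k) :=
  RatFunc.mapRingHom (Polynomial.mapRingHom (algebraMap k (AlgebraicClosure k)))
    (by
      intro F hF
      rw [Submonoid.mem_comap, mem_nonZeroDivisors_iff_ne_zero]
      exact (Polynomial.map_ne_zero_iff (algebraMap k (AlgebraicClosure k)).injective).2
        (nonZeroDivisors.ne_zero hF))

theorem tau_apply (z : RatFunc k) : tau k z =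
    algebraMap _ (RatFunc (AlgebraicClosure k)) (z.num.map (algebraMap k (AlgebraicClosure k))) /
    algebraMap _ (RatFunc (AlgebraicClosure k))
      (z.denom.map (algebraMap k (AlgebraicClosure k))) := by
  rw [tau, RatFunc.coe_mapRingHom_eq_coe_map, RatFunc.map_apply]
  rfl

theorem tau_nonconst {c : RatFunc k} (hc : ∀ x : k, c ≠ RatFunc.C x) (x : AlgebraicClosure k) :
    tau k c ≠ RatFunc.C x := by
  intro h
  rw [tau_apply] at h
  have h1 : algebraMap _ (RatFunc (AlgebraicClosure k))
      (c.denom.map (algebraMap k (AlgebraicClosure k))) ≠ 0 :=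
    (map_ne_zero_iff _ (RatFunc.algebraMap_injective _)).2
      ((Polynomial.map_ne_zero_iff (algebraMap k (AlgebraicClosure k)).injective).2 c.denom_ne_zero)
  rw [div_eq_iff h1, ← RatFunc.algebraMap_C, ← map_mul] at h
  have h2 := RatFunc.algebraMap_injective _ h
  set n := c.denom.natDegree with hn
  have h3 := congrArg (fun F => F.coeff n) h2
  simp only [coeff_map, coeff_C_mul] at h3
  have h4 : c.denom.coeff n = 1 := c.monic_denom.coeff_natDegree
  rw [h4, map_one, mul_one] at h3
  have h5 : c.num = C (c.num.coeff n) * c.denom := by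
    apply Polynomial.map_injective _ (algebraMap k (AlgebraicClosure k)).injective
    rw [Polynomial.map_mul, map_C, h3]
    exact h2
  apply hc (c.num.coeff n)
  have h6 : algebraMap k[X] (RatFunc k) c.denom ≠ 0 :=
    (map_ne_zero_iff _ (RatFunc.algebraMap_injective k)).2 c.denom_ne_zero
  rw [← RatFunc.num_div_denom c, div_eq_iff h6]
  conv_lhs => rw [h5]
  rw [map_mul, RatFunc.algebraMap_C, RatFunc.num_div_denom]

theorem tau_semi (d : ℕ) (c : RatFunc k) : Semiconj (tau k) (uni d c) (uni d (tau k c)) := by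
  intro z
  change tau k (z ^ d + c) = (tau k z) ^ d + tau k c
  rw [map_add, map_pow]

theorem tau_per {d : ℕ} {c P : RatFunc k} :
    tau k P ∈ periodicPts (uni d (tau k c)) ↔ P ∈ periodicPts (uni d c) := by
  constructor
  · rintro ⟨n, hn, h⟩
    refine ⟨n, hn, ?_⟩
    have h1 := ((tau_semi d c).iterate_right n) P
    have h2 : (uni d (tau k c))^[n] (tau k P) = tau k P := h
    rw [h2] at h1
    exact (tau k).injective h1
  · intro h
    exact (tau_semi d c).mapsTo_periodicPts h

theorem unique_per (ha : 1 ≤ a) (hm : 3 ≤ m) (hpm : ¬ p ∣ m) {c : RatFunc k}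
    (hc : ∀ x : k, c ≠ RatFunc.C x) {P Q : RatFunc k} (hP : P ∈ periodicPts (uni (p ^ a * m) c))
    (hQ : Q ∈ periodicPts (uni (p ^ a * m) c)) : P = Q := by
  have : CharP (AlgebraicClosure k) p :=
    charP_of_injective_algebraMap (algebraMap k (AlgebraicClosure k)).injective p
  apply (tau k).injective
  exact unique_closed ha hm hpm (tau_nonconst hc) (tau_per.2 hP) (tau_per.2 hQ)

theorem pre_per (ha : 1 ≤ a) (hm : 3 ≤ m) (hpm : ¬ p ∣ m) {c : RatFunc k}
    (hc : ∀ x : k, c ≠ RatFunc.C x) {n r : ℕ} (hr : 1 ≤ r) {P : RatFunc k}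
    (h : (uni (p ^ a * m) c)^[n + r] P = (uni (p ^ a * m) c)^[n] P) :
    uni (p ^ a * m) c P ∈ periodicPts (uni (p ^ a * m) c) := by
  have : CharP (AlgebraicClosure k) p :=
    charP_of_injective_algebraMap (algebraMap k (AlgebraicClosure k)).injective p
  have h0 : (uni (p ^ a * m) c)^[n] P ∈ periodicPts (uni (p ^ a * m) c) := by
    refine ⟨r, hr, ?_⟩
    change (uni (p ^ a * m) c)^[r] ((uni (p ^ a * m) c)^[n] P) = _
    rw [← iterate_add_apply, add_comm r n, h]
  rw [← tau_per] at h0 ⊢
  have h1 := ((tau_semi (p ^ a * m) c).iterate_right n) P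
  have h2 := (tau_semi (p ^ a * m) c) P
  rw [h1] at h0
  rw [h2]
  exact pre_closed ha hm hpm (tau_nonconst hc) n _ h0

end general

end Pool.Agent.H987R3
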