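import Mathlib
import Pool.Agent.H987R3.UniG
set_option autoImplicit false

/-!
# The unicritical family in characteristic dividing the degree

Let `k` be any field of characteristic `p > 0`, `K = k(t)`, and `d = p ^ a * m` with `a ≥ 1`,
`m ≥ 3` prime to `p`.  For every non-constant `c ∈ K` the polynomial `f(z) = z ^ d + c` has at most
one periodic point in `K`; every preperiodic point `P ∈ K` satisfies `f (f P) = f P`; and there are
at most `m` preperiodic points in `K`.

Proof.  After extending constants, moving a non-pole of `c` to infinity and extracting `p`-th roots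
of `c` and of the periodic points we may assume `dc ≠ 0`.  All periodic points have the same
denominator `B` (`B ^ d` is the denominator of `c`).  Two distinct periodic points `x, y` never
collide outside the poles of `c`, because `f x - f y = (x ^ m - y ^ m) ^ q`; hence
`x ^ m - y ^ m` is an `S`-unit, `S` the poles of `c`, and Mason-Stothers applies since
`dx = dy = dc ≠ 0`.  If `f P` were not periodic there would be a solution of
`T ^ m = R ^ (q m) + κ R` with `R` non-constant, excluded by Mason-Stothers and descent.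
-/

namespace Pool.Agent.Results.MP_9b502d_nt.InseparableUnicritical
open Pool.Agent.H987R3 Function

theorem result (k : Type*) [Field k] (p : ℕ) [Fact p.Prime] [CharP k p] (a m : ℕ) (ha : 1 ≤ a)
    (hm : 3 ≤ m) (hpm : ¬ p ∣ m) (c : RatFunc k) (hc : ∀ x : k, c ≠ RatFunc.C x)
    (f : RatFunc k → RatFunc k) (hf : ∀ z, f z = z ^ (p ^ a * m) + c) :
    (∀ P Q : RatFunc k, P ∈ periodicPts f → Q ∈ periodicPts f → P = Q) ∧
    (∀ P : RatFunc k, (∃ n r : ℕ, 1 ≤ r ∧ f^[n + r] P = f^[n] P) → f (f P) = f P) ∧
    {P : RatFunc k | ∃ n r : ℕ, 1 ≤ r ∧ f^[n + r] P = f^[n] P}.encard ≤ m := by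
  classical
  have hfu : f = uni (p ^ a * m) c := by
    funext z; exact hf z
  subst hfu
  have h1 : ∀ P Q : RatFunc k, P ∈ periodicPts (uni (p ^ a * m) c) →
      Q ∈ periodicPts (uni (p ^ a * m) c) → P = Q :=
    fun P Q hP hQ => unique_per ha hm hpm hc hP hQ
  have h2 : ∀ P : RatFunc k, (∃ n r : ℕ, 1 ≤ r ∧ (uni (p ^ a * m) c)^[n + r] P =
      (uni (p ^ a * m) c)^[n] P) → uni (p ^ a * m) c P ∈ periodicPts (uni (p ^ a * m) c) := by
    rintro P ⟨n, r, hr, h⟩
    exact pre_per ha hm hpm hc hr h
  have h3 : ∀ P : RatFunc k, (∃ n r : ℕ, 1 ≤ r ∧ (uni (p ^ a * m) c)^[n + r] P =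
      (uni (p ^ a * m) c)^[n] P) → uni (p ^ a * m) c (uni (p ^ a * m) c P) =
        uni (p ^ a * m) c P := by
    intro P hP
    have h := h2 P hP
    exact h1 _ _ ((bijOn_periodicPts _).mapsTo h) h
  refine ⟨h1, h3, ?_⟩
  by_cases hne : ∃ P0 : RatFunc k, ∃ n r : ℕ, 1 ≤ r ∧ (uni (p ^ a * m) c)^[n + r] P0 =
      (uni (p ^ a * m) c)^[n] P0
  · obtain ⟨P0, hP0⟩ := hne
    set S := uni (p ^ a * m) c P0 with hS
    have hSper : S ∈ periodicPts (uni (p ^ a * m) c) := h2 P0 hP0
    have hSfix : uni (p ^ a * m) c S = S := h3 P0 hP0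
    have hsub : {P : RatFunc k | ∃ n r : ℕ, 1 ≤ r ∧ (uni (p ^ a * m) c)^[n + r] P =
        (uni (p ^ a * m) c)^[n] P} ⊆ ((Polynomial.nthRoots m (S ^ m)).toFinset : Set (RatFunc k)) := by
      intro P hP
      have h4 := h1 _ _ (h2 P hP) hSper
      have e1 : P ^ (p ^ a * m) + c = S := h4
      have e2 : S ^ (p ^ a * m) + c = S := hSfix
      have h5 : P ^ m = S ^ m := by
        apply frob_inj_rat (p := p) (a := a)
        exact add_right_cancel (e1.trans e2.symm)
      rw [Finset.mem_coe, Multiset.mem_toFinset, Polynomial.mem_nthRoots (by omega)]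
      exact h5
    calc _ ≤ ((Polynomial.nthRoots m (S ^ m)).toFinset : Set (RatFunc k)).encard :=
          Set.encard_le_encard hsub
      _ = ((Polynomial.nthRoots m (S ^ m)).toFinset.card : ℕ∞) := Set.encard_coe_eq_coe_finsetCard _
      _ ≤ m := by
        have := (Multiset.toFinset_card_le (Polynomial.nthRoots m (S ^ m))).trans
          (Polynomial.card_nthRoots m (S ^ m))
        exact_mod_cast this
  · have hempty : {P : RatFunc k | ∃ n r : ℕ, 1 ≤ r ∧ (uni (p ^ a * m) c)^[n + r] P =
        (uni (p ^ a * m) c)^[n] P} = ∅ := by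
      ext P
      constructor
      · intro h; exact absurd ⟨P, h⟩ hne
      · intro h; exact absurd h (Set.notMem_empty P)
    rw [hempty]
    simp

end Pool.Agent.Results.MP_9b502d_nt.InseparableUnicritical
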