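import Mathlib
import Pool.Agent.H987R3.UniF
set_option autoImplicit false

/-!
`m = 2`, `p` odd: at most two periodic points when `c` is not a `p`-th power.
-/

namespace Pool.Agent.H987R3
open Polynomial Function UniqueFactorizationMonoid

variable {k : Type*} [Field k]

theorem rootMultiplicity_pow' (β : k) (F : k[X]) (n : ℕ) :
    rootMultiplicity β (F ^ n) = n * rootMultiplicity β F := by
  classical
  rw [← count_roots, roots_pow, Multiset.count_nsmul, count_roots]

section
variable [IsAlgClosed k] {p : ℕ} [Fact p.Prime] [CharP k p] {a : ℕ} {c : RatFunc k}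

theorem roots_in {m : ℕ} (ha : 1 ≤ a) (hm : 1 ≤ m) (hc : c ≠ 0) {P Q : RatFunc k}
    (hP : P ∈ periodicPts (uni (p ^ a * m) c)) (hQ : Q ∈ periodicPts (uni (p ^ a * m) c))
    (hne : P ≠ Q) {γ : k} (hγ : (P.num ^ m - Q.num ^ m).eval γ = 0) : P.denom.eval γ = 0 := by
  by_contra hB'
  have hd : 2 ≤ p ^ a * m := two_le_d ha hm
  have hdi := diamond ha hm hc hP hQ
  have hne2 : uni (p ^ a * m) c P ≠ uni (p ^ a * m) c Q :=
    fun h => hne ((bijOn_periodicPts _).injOn hP hQ h)
  have h1 := congrArg (Polynomial.eval γ) hdi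
  rw [eval_pow, hγ, zero_pow (pow_ne_zero _ (Fact.out : p.Prime).ne_zero), eval_mul, eval_pow] at h1
  rcases mul_eq_zero.1 h1 with h | h
  · refine no_collision ha hm hc (next_mem hP) (next_mem hQ) hne2 (γ := γ) ?_ h
    rw [den_eq hd hc (next_mem hP) hP]
    exact hB'
  · exact hB' ((pow_eq_zero_iff (by omega)).1 h)

omit [IsAlgClosed k] in
theorem num_not_root {P : RatFunc k} {γ : k} (h : P.denom.eval γ = 0) : P.num.eval γ ≠ 0 := by
  intro h1
  obtain ⟨u, v, huv⟩ := P.isCoprime_num_denom
  have := congrArg (Polynomial.eval γ) huv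
  rw [eval_add, eval_mul, eval_mul, h1, h] at this
  simp at this

theorem sq_sub_ne (ha : 1 ≤ a) (hc : c ≠ 0) {P Q : RatFunc k}
    (hP : P ∈ periodicPts (uni (p ^ a * 2) c)) (hQ : Q ∈ periodicPts (uni (p ^ a * 2) c))
    (hne : P ≠ Q) : P.num ^ 2 - Q.num ^ 2 ≠ 0 := by
  intro h0
  have hd : 2 ≤ p ^ a * 2 := two_le_d ha (by omega)
  have hdi := diamond ha (by omega) hc hP hQ
  have hne2 : uni (p ^ a * 2) c P ≠ uni (p ^ a * 2) c Q :=
    fun h => hne ((bijOn_periodicPts _).injOn hP hQ h)
  rw [h0, zero_pow (pow_ne_zero _ (Fact.out : p.Prime).ne_zero)] at hdi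
  rcases mul_eq_zero.1 hdi with h | h
  · exact num_ne (den_eq hd hc (next_mem hP) (next_mem hQ)) hne2 h
  · exact pow_ne_zero _ (RatFunc.denom_ne_zero _) h

/-- every root of the common denominator of two distinct periodic points is a multiple root -/
theorem double_root (ha : 1 ≤ a) (hp2 : p ≠ 2) (hc : c ≠ 0) {P Q : RatFunc k}
    (hP : P ∈ periodicPts (uni (p ^ a * 2) c)) (hQ : Q ∈ periodicPts (uni (p ^ a * 2) c))
    (hne : P ≠ Q) {β : k} (hβ : P.denom.eval β = 0) : 2 ≤ rootMultiplicity β P.denom := by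
  have hd : 2 ≤ p ^ a * 2 := two_le_d ha (by omega)
  have hp := (Fact.out : p.Prime)
  have hp3 : 3 ≤ p := by
    have := hp.two_le
    omega
  have hq : 3 ≤ p ^ a := by
    calc 3 ≤ p := hp3
      _ = p ^ 1 := (pow_one p).symm
      _ ≤ p ^ a := Nat.pow_le_pow_right (by omega) ha
  set q := p ^ a with hqdef
  set f := uni (q * 2) c with hf
  by_contra hlt
  have hB0 : P.denom ≠ 0 := P.denom_ne_zero
  have h1 : rootMultiplicity β P.denom = 1 := by
    have := (rootMultiplicity_pos hB0 (x := β)).2 hβ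
    omega
  set W : ℕ → ℕ := fun n => rootMultiplicity β ((f^[n] P).num - (f^[n] Q).num) with hW
  set A : ℕ → ℕ := fun n => rootMultiplicity β ((f^[n] P).num + (f^[n] Q).num) with hA
  have h2k : (2 : k) ≠ 0 := by
    have h := (CharP.cast_eq_zero_iff k p 2).not.2 (fun h => by
      have := Nat.le_of_dvd (by norm_num) h
      omega)
    exact_mod_cast h
  have hfac : ∀ n, ((f^[n] P).num ^ 2 - (f^[n] Q).num ^ 2) =
      ((f^[n] P).num - (f^[n] Q).num) * ((f^[n] P).num + (f^[n] Q).num) := by
    intro n; ring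
  have hE : ∀ n, W (n + 1) + (2 * q - 1) = q * (W n + A n) := by
    intro n
    have hPn := iter_mem hP n
    have hQn := iter_mem hQ n
    rw [← hf] at hPn hQn
    have hdi := diamond ha (by omega) hc hPn hQn
    rw [← hqdef, ← hf] at hdi
    have hnen := iter_ne hP hQ hne n
    rw [← hf] at hnen
    have hne1 := iter_ne hP hQ hne (n + 1)
    rw [iterate_succ_apply', iterate_succ_apply', ← hf] at hne1
    have hnum : (f (f^[n] P)).num - (f (f^[n] Q)).num ≠ 0 :=
      num_ne (den_eq hd hc (next_mem hPn) (next_mem hQn)) hne1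
    have hden : (f^[n] P).denom = P.denom := den_eq hd hc hPn hP
    have hsq := sq_sub_ne ha hc hPn hQn hnen
    have h2 := congrArg (rootMultiplicity β) hdi
    rw [rootMultiplicity_mul (mul_ne_zero hnum (pow_ne_zero _ (RatFunc.denom_ne_zero _))),
      rootMultiplicity_pow', rootMultiplicity_pow', hden, h1, hfac,
      rootMultiplicity_mul (by rw [← hfac]; exact hsq), mul_one] at h2
    have h3 : W (n + 1) = rootMultiplicity β ((f (f^[n] P)).num - (f (f^[n] Q)).num) := by
      simp only [hW]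
      rw [iterate_succ_apply', iterate_succ_apply']
    rw [h3]
    have h4 : q * 2 - 1 = 2 * q - 1 := by omega
    rw [h4] at h2
    exact h2
  have hex : ∀ n, 1 ≤ W n → A n = 0 := by
    intro n hn
    by_contra hA0
    have hPn := iter_mem hP n
    rw [← hf] at hPn
    have hden : (f^[n] P).denom = P.denom := den_eq hd hc hPn hP
    have e1 : ((f^[n] P).num - (f^[n] Q).num).eval β = 0 := by
      by_contra hcon
      have : W n = 0 := rootMultiplicity_eq_zero hcon
      omega
    have e2 : ((f^[n] P).num + (f^[n] Q).num).eval β = 0 := by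
      by_contra hcon
      exact hA0 (rootMultiplicity_eq_zero hcon)
    rw [eval_sub] at e1
    rw [eval_add] at e2
    have e3 : 2 * (f^[n] P).num.eval β = 0 := by linear_combination e1 + e2
    have e4 : (f^[n] P).num.eval β = 0 := (mul_eq_zero.1 e3).resolve_left h2k
    exact num_not_root (by rw [hden]; exact hβ) e4
  have hstep : ∀ n, W (n + 1) + 1 ≤ W (n + 2) := by
    intro n
    have e0 := hE n
    have e1 := hE (n + 1)
    have e2 := hE (n + 2)
    set s := W n + A n with hs
    have hs2 : 2 ≤ s := by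
      by_contra hcon
      have : s = 0 ∨ s = 1 := by omega
      rcases this with h | h
      · rw [h] at e0; omega
      · rw [h] at e0; omega
    have hW1 : 1 ≤ W (n + 1) := by
      have := Nat.mul_le_mul_left q hs2
      omega
    have hA1 := hex _ hW1
    rw [hA1, add_zero] at e1
    have hW2 : 1 ≤ W (n + 2) := by
      have hs1' : 2 ≤ W (n + 1) := by
        by_contra hcon
        have : W (n + 1) = 1 := by omega
        rw [this] at e1
        omega
      have := Nat.mul_le_mul_left q hs1'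
      change W (n + 2) + (2 * q - 1) = q * W (n + 1) at e1
      omega
    have hs3 : 3 ≤ s := by
      by_contra hcon
      have hs' : s = 2 := by omega
      rw [hs'] at e0
      have : W (n + 1) = 1 := by omega
      rw [this] at e1
      change W (n + 2) + (2 * q - 1) = q * 1 at e1
      omega
    have hW4 : 4 ≤ W (n + 1) := by
      have := Nat.mul_le_mul_left q hs3
      omega
    change W (n + 2) + (2 * q - 1) = q * W (n + 1) at e1
    obtain ⟨v, hv⟩ : ∃ v, W (n + 1) = v + 4 := ⟨W (n + 1) - 4, by omega⟩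
    rw [hv] at e1 ⊢
    have h5 : 3 * v ≤ q * v := Nat.mul_le_mul_right _ hq
    rw [Nat.mul_add] at e1
    omega
  have hgrow : ∀ j, W 1 + j ≤ W (1 + j) := by
    intro j
    induction j with
    | zero => exact le_rfl
    | succ j ih =>
      have := hstep j
      have e1 : 1 + (j + 1) = j + 2 := by omega
      have e2 : 1 + j = j + 1 := by omega
      rw [e1]
      rw [e2] at ih
      omega
  obtain ⟨n1, hn1, hp1⟩ := id hP
  obtain ⟨n2, hn2, hp2'⟩ := id hQ
  have hPN : f^[n1 * n2] P = P := hp1.mul_const n2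
  have hQN : f^[n1 * n2] Q = Q := hp2'.const_mul n1
  have h3 := hgrow (n1 * n2)
  have h4 : W (1 + n1 * n2) = W 1 := by
    simp only [hW]
    rw [iterate_add_apply, iterate_add_apply, hPN, hQN]
  have h5 := Nat.mul_pos hn1 hn2
  omega

/-- the degrees of the sums and differences -/
theorem deg_sum (ha : 1 ≤ a) (hc : c ≠ 0) (hcd : c.num.natDegree ≤ c.denom.natDegree)
    {P Q : RatFunc k}
    (hP : P ∈ periodicPts (uni (p ^ a * 2) c)) (hQ : Q ∈ periodicPts (uni (p ^ a * 2) c))
    (hne : P ≠ Q) : P.denom.natDegree ≤ (P.num + Q.num).natDegree := by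
  have hd : 2 ≤ p ^ a * 2 := two_le_d ha (by omega)
  have hp := (Fact.out : p.Prime)
  have hq : 1 ≤ p ^ a := Nat.pos_of_ne_zero (pow_ne_zero _ hp.ne_zero)
  have hdi := diamond ha (by omega) hc hP hQ
  have hne2 : uni (p ^ a * 2) c P ≠ uni (p ^ a * 2) c Q :=
    fun h => hne ((bijOn_periodicPts _).injOn hP hQ h)
  have hnum := num_ne (den_eq hd hc (next_mem hP) (next_mem hQ)) hne2
  have hinf := no_collision_inf ha (by omega) hc hcd (next_mem hP) (next_mem hQ) hne2
  rw [den_eq hd hc (next_mem hP) hP] at hinf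
  have h1 := congrArg natDegree hdi
  rw [natDegree_mul hnum (pow_ne_zero _ (RatFunc.denom_ne_zero _)), natDegree_pow,
    natDegree_pow] at h1
  have hsq := sq_sub_ne ha hc hP hQ hne
  have hfac : P.num ^ 2 - Q.num ^ 2 = (P.num - Q.num) * (P.num + Q.num) := by ring
  rw [hfac] at hsq h1
  rw [natDegree_mul (left_ne_zero_of_mul hsq) (right_ne_zero_of_mul hsq)] at h1
  set b := P.denom.natDegree with hb
  have hX : P.num.natDegree ≤ b := deg_le hd hc hcd hP
  have hY : Q.num.natDegree ≤ b := by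
    rw [hb, den_eq hd hc hP hQ]; exact deg_le hd hc hcd hQ
  have hXY : (P.num - Q.num).natDegree ≤ b :=
    (natDegree_sub_le _ _).trans (max_le hX hY)
  by_contra hcon
  push Not at hcon
  have h2 : (P.num - Q.num).natDegree + (P.num + Q.num).natDegree + 1 ≤ 2 * b := by omega
  have h3 := Nat.mul_le_mul_left (p ^ a) h2
  have h4 : (p ^ a * 2 - 1) * b + b = p ^ a * (2 * b) := by
    rw [← Nat.succ_mul, ← mul_assoc]; congr 1; omega
  rw [Nat.mul_add] at h3
  omega

/-- Mason-Stothers for `U - V`, roots among the roots of `B`, with a common factor -/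
theorem mason_gcd [DecidableEq k] {U V B : k[X]} (hU : U ≠ 0) (hV : V ≠ 0) (hUV : U - V ≠ 0)
    (hB : B ≠ 0) (rU : ∀ γ : k, U.eval γ = 0 → B.eval γ = 0)
    (rV : ∀ γ : k, V.eval γ = 0 → B.eval γ = 0)
    (rUV : ∀ γ : k, (U - V).eval γ = 0 → B.eval γ = 0)
    (hw : derivative U * V - U * derivative V ≠ 0) :
    U.natDegree + 1 ≤ B.roots.toFinset.card + (EuclideanDomain.gcd U V).natDegree := by
  classical
  set g := EuclideanDomain.gcd U V with hg
  obtain ⟨u, hu⟩ := EuclideanDomain.gcd_dvd_left U V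
  obtain ⟨v, hv⟩ := EuclideanDomain.gcd_dvd_right U V
  rw [← hg] at hu hv
  have hg0 : g ≠ 0 := by
    rintro h0
    rw [h0, zero_mul] at hu
    exact hU hu
  have hu0 : u ≠ 0 := by
    rintro rfl
    rw [mul_zero] at hu
    exact hU hu
  have hv0 : v ≠ 0 := by
    rintro rfl
    rw [mul_zero] at hv
    exact hV hv
  have huv : U - V = g * (u - v) := by rw [hu, hv]; ring
  have huv0 : u - v ≠ 0 := by
    intro h0
    rw [h0, mul_zero] at huv
    exact hUV huv
  have hcop : IsCoprime u v := by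
    have h1 := EuclideanDomain.gcd_eq_gcd_ab U V
    rw [← hg] at h1
    refine ⟨EuclideanDomain.gcdA U V, EuclideanDomain.gcdB U V, ?_⟩
    apply mul_left_cancel₀ hg0
    calc g * (EuclideanDomain.gcdA U V * u + EuclideanDomain.gcdB U V * v) =
        (g * u) * EuclideanDomain.gcdA U V + (g * v) * EuclideanDomain.gcdB U V := by ring
      _ = U * EuclideanDomain.gcdA U V + V * EuclideanDomain.gcdB U V := by rw [← hu, ← hv]
      _ = g * 1 := by rw [← h1, mul_one]
  set R : k[X] := ∏ β ∈ B.roots.toFinset, (Polynomial.X - C β) with hR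
  have hR0 : R ≠ 0 := Finset.prod_ne_zero_iff.2 fun β _ => X_sub_C_ne_zero β
  have hRroot : ∀ γ : k, B.eval γ = 0 → R.eval γ = 0 := by
    intro γ hγ
    rw [hR, eval_prod]
    refine Finset.prod_eq_zero (i := γ) ?_ (by simp)
    rw [Multiset.mem_toFinset, mem_roots hB]
    exact hγ
  have hRdeg : R.natDegree = B.roots.toFinset.card := by
    rw [hR, natDegree_prod _ _ (fun β _ => X_sub_C_ne_zero β)]
    simp
  rcases Polynomial.abc (a := u) (b := -v) (c := -(u - v)) hu0 (neg_ne_zero.2 hv0)
    (neg_ne_zero.2 huv0) ((IsCoprime.neg_right_iff _ _).2 hcop) (by ring) with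
    ⟨h1, -, -⟩ | ⟨h1, h2, -⟩
  · have hrad : radical (u * -v * -(u - v)) ∣ R := by
      apply radical_dvd_of_roots hR0
      intro γ hγ
      apply hRroot
      rw [eval_mul, eval_mul, eval_neg, eval_neg] at hγ
      rcases mul_eq_zero.1 hγ with h | h
      · rcases mul_eq_zero.1 h with h | h
        · apply rU
          rw [hu, eval_mul, h, mul_zero]
        · apply rV
          rw [hv, eval_mul, neg_eq_zero.1 h, mul_zero]
      · apply rUV
        rw [huv, eval_mul, neg_eq_zero.1 h, mul_zero]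
    have hle := natDegree_le_of_dvd hrad hR0
    rw [hRdeg] at hle
    have h3 : U.natDegree = g.natDegree + u.natDegree := by
      conv_lhs => rw [hu]
      exact natDegree_mul hg0 hu0
    omega
  · exfalso
    apply hw
    rw [derivative_neg, neg_eq_zero] at h2
    rw [hu, hv, derivative_mul, derivative_mul, h1, h2]
    ring

/-- at most two periodic points -/
theorem two_of_deriv (ha : 1 ≤ a) (hp2 : p ≠ 2) (hc : c ≠ 0)
    (hcd : c.num.natDegree ≤ c.denom.natDegree)
    (hder : derivative c.num ≠ 0) {P1 P2 P3 : RatFunc k}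
    (h1 : P1 ∈ periodicPts (uni (p ^ a * 2) c)) (h2 : P2 ∈ periodicPts (uni (p ^ a * 2) c))
    (h3 : P3 ∈ periodicPts (uni (p ^ a * 2) c)) : P1 = P2 ∨ P1 = P3 ∨ P2 = P3 := by
  classical
  by_contra hcon
  push Not at hcon
  obtain ⟨h12, h13, h23⟩ := hcon
  have hd : 2 ≤ p ^ a * 2 := two_le_d ha (by omega)
  have hp := (Fact.out : p.Prime)
  have h2k : (2 : k) ≠ 0 := by
    have h := (CharP.cast_eq_zero_iff k p 2).not.2 (fun h => by
      have := Nat.le_of_dvd (by norm_num) h
      have := hp.two_le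
      omega)
    exact_mod_cast h
  set B := P1.denom with hB
  have hB0 : B ≠ 0 := P1.denom_ne_zero
  have hB2 : P2.denom = B := den_eq hd hc h2 h1
  have hB3 : P3.denom = B := den_eq hd hc h3 h1
  set X1 := P1.num with hX1
  set X2 := P2.num with hX2
  set X3 := P3.num with hX3
  -- differential relation
  have hκ : ∀ {P : RatFunc k}, P ∈ periodicPts (uni (p ^ a * 2) c) → derivative c.num =
      B ^ (p ^ a * 2 - 2) * (derivative P.num * B - P.num * derivative B) := by
    intro P hP
    obtain ⟨P', hP', hPP'⟩ := (bijOn_periodicPts (uni (p ^ a * 2) c)).surjOn hP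
    have h := deriv_c ha (by omega : 1 ≤ 2) hc hP'
    rw [hPP', den_eq hd hc hP' h1] at h
    exact h
  have hBd : B ^ (p ^ a * 2 - 2) ≠ 0 := pow_ne_zero _ hB0
  set κ := derivative X1 * B - X1 * derivative B with hκ1
  have hκ2 : derivative X2 * B - X2 * derivative B = κ :=
    mul_left_cancel₀ hBd ((hκ h2).symm.trans (hκ h1))
  have hκ3 : derivative X3 * B - X3 * derivative B = κ :=
    mul_left_cancel₀ hBd ((hκ h3).symm.trans (hκ h1))
  have hκ0 : κ ≠ 0 := by
    intro h0
    apply hder
    rw [hκ h1, ← hX1, ← hκ1, h0, mul_zero]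
  -- differences and sums
  have d12 : X1 - X2 ≠ 0 := num_ne (den_eq hd hc h1 h2) h12
  have d13 : X1 - X3 ≠ 0 := num_ne (den_eq hd hc h1 h3) h13
  have d23 : X2 - X3 ≠ 0 := num_ne (den_eq hd hc h2 h3) h23
  have f2 : ∀ x y : k[X], x ^ 2 - y ^ 2 = (x - y) * (x + y) := by intro x y; ring
  have a12 : X1 + X2 ≠ 0 := by
    have h := sq_sub_ne ha hc h1 h2 h12
    rw [f2] at h
    exact right_ne_zero_of_mul h
  have a13 : X1 + X3 ≠ 0 := by
    have h := sq_sub_ne ha hc h1 h3 h13
    rw [f2] at h
    exact right_ne_zero_of_mul h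
  have a23 : X2 + X3 ≠ 0 := by
    have h := sq_sub_ne ha hc h2 h3 h23
    rw [f2] at h
    exact right_ne_zero_of_mul h
  have hroots : ∀ {P Q : RatFunc k}, P ∈ periodicPts (uni (p ^ a * 2) c) →
      Q ∈ periodicPts (uni (p ^ a * 2) c) → P ≠ Q → ∀ γ : k,
      ((P.num - Q.num).eval γ = 0 ∨ (P.num + Q.num).eval γ = 0) → B.eval γ = 0 := by
    intro P Q hP hQ hne γ hγ
    have h : (P.num ^ 2 - Q.num ^ 2).eval γ = 0 := by
      rw [f2, eval_mul]
      rcases hγ with h | h
      · rw [h, zero_mul]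
      · rw [h, mul_zero]
    have := roots_in ha (by omega) hc hP hQ hne h
    rwa [den_eq hd hc hP h1] at this
  -- degrees
  set b := B.natDegree with hb
  have hdX : ∀ {P : RatFunc k}, P ∈ periodicPts (uni (p ^ a * 2) c) → P.num.natDegree ≤ b := by
    intro P hP
    rw [hb, hB, ← den_eq hd hc hP h1]
    exact deg_le hd hc hcd hP
  have e12 : (X1 + X2).natDegree = b := by
    apply le_antisymm
    · exact (natDegree_add_le _ _).trans (max_le (hdX h1) (hdX h2))
    · exact deg_sum ha hc hcd h1 h2 h12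
  have e13 : (X1 + X3).natDegree = b := by
    apply le_antisymm
    · exact (natDegree_add_le _ _).trans (max_le (hdX h1) (hdX h3))
    · exact deg_sum ha hc hcd h1 h3 h13
  have e23 : (X2 + X3).natDegree = b := by
    apply le_antisymm
    · exact (natDegree_add_le _ _).trans (max_le (hdX h2) (hdX h3))
    · have := deg_sum ha hc hcd h2 h3 h23
      rwa [hB2] at this
  -- number of roots of `B`
  have hs : 2 * B.roots.toFinset.card ≤ b := by
    calc 2 * B.roots.toFinset.card = ∑ β ∈ B.roots.toFinset, 2 := by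
          rw [Finset.sum_const, smul_eq_mul, mul_comm]
      _ ≤ ∑ β ∈ B.roots.toFinset, B.roots.count β := by
          apply Finset.sum_le_sum
          intro β hβ
          rw [count_roots]
          apply double_root ha hp2 hc h1 h2 h12
          rw [Multiset.mem_toFinset, mem_roots hB0] at hβ
          exact hβ
      _ = Multiset.card B.roots := Multiset.toFinset_sum_count_eq _
      _ ≤ b := card_roots' B
  -- Mason-Stothers, three times
  have w1 : derivative (X1 + X2) * (X1 + X3) - (X1 + X2) * derivative (X1 + X3) ≠ 0 := by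
    intro h0
    have : B * (derivative (X1 + X2) * (X1 + X3) - (X1 + X2) * derivative (X1 + X3)) =
        2 * κ * (X3 - X2) := by
      rw [derivative_add, derivative_add]
      linear_combination (X1 + X3) * (hκ1.symm + hκ2) - (X1 + X2) * (hκ1.symm + hκ3)
    rw [h0, mul_zero] at this
    have h2' : (2 : k[X]) ≠ 0 := by
      have := C_ne_zero.2 h2k
      rwa [map_ofNat C 2] at this
    refine mul_ne_zero (mul_ne_zero h2' hκ0) ?_ this.symm
    rw [← neg_sub]; exact neg_ne_zero.2 d23
  have w2 : derivative (X1 + X2) * (X2 + X3) - (X1 + X2) * derivative (X2 + X3) ≠ 0 := by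
    intro h0
    have : B * (derivative (X1 + X2) * (X2 + X3) - (X1 + X2) * derivative (X2 + X3)) =
        2 * κ * (X3 - X1) := by
      rw [derivative_add, derivative_add]
      linear_combination (X2 + X3) * (hκ1.symm + hκ2) - (X1 + X2) * (hκ2 + hκ3)
    rw [h0, mul_zero] at this
    have h2' : (2 : k[X]) ≠ 0 := by
      have := C_ne_zero.2 h2k
      rwa [map_ofNat C 2] at this
    refine mul_ne_zero (mul_ne_zero h2' hκ0) ?_ this.symm
    rw [← neg_sub]; exact neg_ne_zero.2 d13
  have w3 : derivative (X1 + X3) * (X2 + X3) - (X1 + X3) * derivative (X2 + X3) ≠ 0 := by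
    intro h0
    have : B * (derivative (X1 + X3) * (X2 + X3) - (X1 + X3) * derivative (X2 + X3)) =
        2 * κ * (X2 - X1) := by
      rw [derivative_add, derivative_add]
      linear_combination (X2 + X3) * (hκ1.symm + hκ3) - (X1 + X3) * (hκ2 + hκ3)
    rw [h0, mul_zero] at this
    have h2' : (2 : k[X]) ≠ 0 := by
      have := C_ne_zero.2 h2k
      rwa [map_ofNat C 2] at this
    refine mul_ne_zero (mul_ne_zero h2' hκ0) ?_ this.symm
    rw [← neg_sub]; exact neg_ne_zero.2 d12
  have s1 : (X1 + X2) - (X1 + X3) = X2 - X3 := by ring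
  have s2 : (X1 + X2) - (X2 + X3) = X1 - X3 := by ring
  have s3 : (X1 + X3) - (X2 + X3) = X1 - X2 := by ring
  have m1 := mason_gcd a12 a13 (by rw [s1]; exact d23) hB0 (fun γ h => hroots h1 h2 h12 γ (Or.inr h))
    (fun γ h => hroots h1 h3 h13 γ (Or.inr h))
    (fun γ h => hroots h2 h3 h23 γ (Or.inl (by rw [s1] at h; exact h))) w1
  have m2 := mason_gcd a12 a23 (by rw [s2]; exact d13) hB0 (fun γ h => hroots h1 h2 h12 γ (Or.inr h))
    (fun γ h => hroots h2 h3 h23 γ (Or.inr h))
    (fun γ h => hroots h1 h3 h13 γ (Or.inl (by rw [s2] at h; exact h))) w2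
  have m3 := mason_gcd a13 a23 (by rw [s3]; exact d12) hB0 (fun γ h => hroots h1 h3 h13 γ (Or.inr h))
    (fun γ h => hroots h2 h3 h23 γ (Or.inr h))
    (fun γ h => hroots h1 h2 h12 γ (Or.inl (by rw [s3] at h; exact h))) w3
  set G1 := EuclideanDomain.gcd (X1 + X2) (X1 + X3) with hG1
  set G2 := EuclideanDomain.gcd (X1 + X2) (X2 + X3) with hG2
  set G3 := EuclideanDomain.gcd (X1 + X3) (X2 + X3) with hG3
  have g1l : G1 ∣ X1 + X2 := EuclideanDomain.gcd_dvd_left _ _
  have g1r : G1 ∣ X1 + X3 := EuclideanDomain.gcd_dvd_right _ _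
  have g2l : G2 ∣ X1 + X2 := EuclideanDomain.gcd_dvd_left _ _
  have g2r : G2 ∣ X2 + X3 := EuclideanDomain.gcd_dvd_right _ _
  have g3l : G3 ∣ X1 + X3 := EuclideanDomain.gcd_dvd_left _ _
  have g3r : G3 ∣ X2 + X3 := EuclideanDomain.gcd_dvd_right _ _
  have hall : ∀ γ : k, ¬ ((X1 + X2).eval γ = 0 ∧ (X1 + X3).eval γ = 0 ∧ (X2 + X3).eval γ = 0) := by
    rintro γ ⟨z1, z2, z3⟩
    have hBγ := hroots h1 h2 h12 γ (Or.inr z1)
    rw [eval_add] at z1 z2 z3
    have e : 2 * X1.eval γ = 0 := by linear_combination z1 + z2 - z3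
    have e' : X1.eval γ = 0 := (mul_eq_zero.1 e).resolve_left h2k
    exact num_not_root hBγ e'
  have hev : ∀ {F G : k[X]} {γ : k}, F ∣ G → F.eval γ = 0 → G.eval γ = 0 := by
    rintro F G γ ⟨H, rfl⟩ h
    rw [eval_mul, h, zero_mul]
  have c12 : IsCoprime G1 G2 := by
    rw [Polynomial.isCoprime_iff_aeval_ne_zero_of_isAlgClosed k k G1 G2]
    intro γ
    by_contra hcon
    push Not at hcon
    obtain ⟨z1, z2⟩ := hcon
    rw [coe_aeval_eq_eval] at z1 z2
    exact hall γ ⟨hev g1l z1, hev g1r z1, hev g2r z2⟩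
  have c13 : IsCoprime G1 G3 := by
    rw [Polynomial.isCoprime_iff_aeval_ne_zero_of_isAlgClosed k k G1 G3]
    intro γ
    by_contra hcon
    push Not at hcon
    obtain ⟨z1, z2⟩ := hcon
    rw [coe_aeval_eq_eval] at z1 z2
    exact hall γ ⟨hev g1l z1, hev g1r z1, hev g3r z2⟩
  have c23 : IsCoprime G2 G3 := by
    rw [Polynomial.isCoprime_iff_aeval_ne_zero_of_isAlgClosed k k G2 G3]
    intro γ
    by_contra hcon
    push Not at hcon
    obtain ⟨z1, z2⟩ := hcon
    rw [coe_aeval_eq_eval] at z1 z2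
    exact hall γ ⟨hev g2l z1, hev g3l z2, hev g3r z2⟩
  have hG10 : G1 ≠ 0 := fun h => by rw [h, zero_dvd_iff] at g1l; exact a12 g1l
  have hG20 : G2 ≠ 0 := fun h => by rw [h, zero_dvd_iff] at g2l; exact a12 g2l
  have hG30 : G3 ≠ 0 := fun h => by rw [h, zero_dvd_iff] at g3l; exact a13 g3l
  have n12 := natDegree_le_of_dvd (c12.mul_dvd g1l g2l) a12
  have n13 := natDegree_le_of_dvd (c13.mul_dvd g1r g3l) a13
  have n23 := natDegree_le_of_dvd (c23.mul_dvd g2r g3r) a23
  rw [natDegree_mul hG10 hG20, e12] at n12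
  rw [natDegree_mul hG10 hG30, e13] at n13
  rw [natDegree_mul hG20 hG30, e23] at n23
  rw [e12] at m1 m2
  rw [e13] at m3
  omega

end

end Pool.Agent.H987R3
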