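import Mathlib
import Pool.Agent.H987R3.UniH
set_option autoImplicit false

/-!
`m = 2`, `p` odd: at most two periodic points; the tail of a 2-cycle.
-/

namespace Pool.Agent.H987R3
open Polynomial Function UniqueFactorizationMonoid

variable {k : Type*} [Field k]

section
variable [IsAlgClosed k] {p : ℕ} [Fact p.Prime] [CharP k p] {a : ℕ}

theorem two_aux (ha : 1 ≤ a) (hp2 : p ≠ 2) (N : ℕ) :
    ∀ c : RatFunc k, c.denom.natDegree ≤ N → c.num.natDegree ≤ c.denom.natDegree →
    1 ≤ c.denom.natDegree → ∀ P ∈ periodicPts (uni (p ^ a * 2) c),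
    ∀ Q ∈ periodicPts (uni (p ^ a * 2) c), ∀ O ∈ periodicPts (uni (p ^ a * 2) c),
    P = Q ∨ P = O ∨ Q = O := by
  induction N with
  | zero => intro c h1 _ h3; omega
  | succ N ih =>
    intro c hN hcd hc1 P hP Q hQ O hO
    have hc : c ≠ 0 := by
      intro h0
      rw [h0, RatFunc.denom_zero, natDegree_one] at hc1
      omega
    by_cases hder : derivative c.num = 0
    · have hd : 2 ≤ p ^ a * 2 := two_le_d ha (by omega)
      have hp2 := (Fact.out : p.Prime).two_le
      obtain ⟨C1, hC1⟩ := exists_pth_root (p := p) hder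
      set B := P.denom with hB
      have hBm : B.Monic := P.monic_denom
      have hE : B ^ (p ^ a * 2) = c.denom := den_c hd hc hP
      have hdd : p ^ a * 2 = (p ^ (a - 1) * 2) * p := by
        obtain ⟨b, rfl⟩ : ∃ b, a = b + 1 := ⟨a - 1, by omega⟩
        simp only [Nat.add_sub_cancel]
        ring
      set E1 := B ^ (p ^ (a - 1) * 2) with hE1
      have hE1p : E1 ^ p = c.denom := by rw [hE1, ← pow_mul, ← hdd, hE]
      have hcop : IsCoprime C1 E1 := by
        have h1 := c.isCoprime_num_denom
        rw [← hC1, ← hE1p] at h1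
        exact (IsCoprime.pow_iff (by omega) (by omega)).1 h1
      set c1 : RatFunc k := algebraMap k[X] (RatFunc k) C1 / algebraMap k[X] (RatFunc k) E1
        with hc1def
      have hcc1 : c = c1 ^ p := by
        rw [hc1def, div_pow, ← map_pow, ← map_pow, hC1, hE1p, RatFunc.num_div_denom]
      obtain ⟨hnum, hden⟩ := num_denom_of_coprime hcop (hBm.pow _) hc1def
      have hdeg1 : c.denom.natDegree = p * c1.denom.natDegree := by
        rw [hden, ← hE1p, natDegree_pow]
      have hdeg2 : c.num.natDegree = p * c1.num.natDegree := by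
        rw [hnum, ← hC1, natDegree_pow]
      obtain ⟨R, hR, hRP⟩ := root_periodic ha hcc1 hP
      obtain ⟨S, hS, hSQ⟩ := root_periodic ha hcc1 hQ
      obtain ⟨T, hT, hTO⟩ := root_periodic ha hcc1 hO
      have h1 : 1 ≤ c1.denom.natDegree := by
        rcases Nat.eq_zero_or_pos c1.denom.natDegree with h0 | h0
        · rw [h0] at hdeg1; omega
        · exact h0
      have h2 : c1.num.natDegree ≤ c1.denom.natDegree := by
        rw [hdeg1, hdeg2] at hcd
        exact Nat.le_of_mul_le_mul_left hcd (by omega)
      have h3 : c1.denom.natDegree ≤ N := by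
        have : 2 * c1.denom.natDegree ≤ p * c1.denom.natDegree := Nat.mul_le_mul_right _ hp2
        omega
      rcases ih c1 h3 h2 h1 R hR S hS T hT with h | h | h
      · left; rw [← hRP, ← hSQ, h]
      · right; left; rw [← hRP, ← hTO, h]
      · right; right; rw [← hSQ, ← hTO, h]
    · exact two_of_deriv ha hp2 hc hcd hder hP hQ hO

theorem two_closed (ha : 1 ≤ a) (hp2 : p ≠ 2) {c : RatFunc k}
    (hc : ∀ x : k, c ≠ RatFunc.C x) {P Q O : RatFunc k} (hP : P ∈ periodicPts (uni (p ^ a * 2) c))
    (hQ : Q ∈ periodicPts (uni (p ^ a * 2) c)) (hO : O ∈ periodicPts (uni (p ^ a * 2) c)) :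
    P = Q ∨ P = O ∨ Q = O := by
  have hc0 : c ≠ 0 := by
    have := hc 0
    rwa [map_zero] at this
  have : Infinite k := IsAlgClosed.instInfinite
  obtain ⟨t0, ht0⟩ : ∃ t0 : k, c.denom.eval t0 ≠ 0 := by
    by_contra hcon
    push Not at hcon
    exact c.denom_ne_zero (Polynomial.funext (fun r => by rw [hcon r, eval_zero]))
  set c' := sigma t0 c with hc'
  have h1 := sigma_deg t0 hc0 ht0
  rw [← hc'] at h1
  have hinj : Injective (sigma t0 : RatFunc k → RatFunc k) := (sigma t0).toRingHom.injective
  have h2 : 1 ≤ c'.denom.natDegree := by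
    rcases Nat.eq_zero_or_pos c'.denom.natDegree with h0 | h0
    · exfalso
      obtain ⟨x, hx⟩ := const_of_deg h1 h0
      apply hc x
      apply hinj
      rw [← hc', hx, ← RatFunc.algebraMap_eq_C]
      exact ((sigma t0).commutes x).symm
    · exact h0
  have hsemi : Semiconj (sigma t0) (uni (p ^ a * 2) c) (uni (p ^ a * 2) c') := by
    intro z
    change sigma t0 (z ^ (p ^ a * 2) + c) = (sigma t0 z) ^ (p ^ a * 2) + sigma t0 c
    rw [map_add, map_pow]
  have hmap : ∀ z ∈ periodicPts (uni (p ^ a * 2) c),
      sigma t0 z ∈ periodicPts (uni (p ^ a * 2) c') := by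
    rintro z ⟨n, hn, hz⟩
    refine ⟨n, hn, ?_⟩
    have h3 := (hsemi.iterate_right n) z
    have h4 : (uni (p ^ a * 2) c)^[n] z = z := hz
    rw [h4] at h3
    exact h3.symm
  rcases two_aux ha hp2 c'.denom.natDegree c' le_rfl h1 h2 _ (hmap P hP) _ (hmap Q hQ) _
    (hmap O hO) with h | h | h
  · exact Or.inl (hinj h)
  · exact Or.inr (Or.inl (hinj h))
  · exact Or.inr (Or.inr (hinj h))

/-- `W² = (n^s - e^s)^(2 q) + 4 n^(s (q - 1)) e^(s (q + 1))`, `s = 2 q - 1`, has no non-constant
solution -/
theorem no_square (ha : 1 ≤ a) (hp2 : p ≠ 2) (N : ℕ) :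
    ∀ (n e W : k[X]), n ≠ 0 → e ≠ 0 → IsCoprime n e → n.natDegree + e.natDegree ≤ N →
    0 < n.natDegree + e.natDegree →
    W ^ 2 = (n ^ (2 * p ^ a - 1) - e ^ (2 * p ^ a - 1)) ^ (2 * p ^ a) +
      4 * (n ^ ((2 * p ^ a - 1) * (p ^ a - 1)) * e ^ ((2 * p ^ a - 1) * (p ^ a + 1))) → False := by
  classical
  have hp := (Fact.out : p.Prime)
  have hp3 : 3 ≤ p := by
    have := hp.two_le
    omega
  have hq : 3 ≤ p ^ a := by
    calc 3 ≤ p := hp3
      _ = p ^ 1 := (pow_one p).symm
      _ ≤ p ^ a := Nat.pow_le_pow_right (by omega) ha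
  have h2k : (2 : k) ≠ 0 := by
    have h := (CharP.cast_eq_zero_iff k p 2).not.2 (fun h => by
      have := Nat.le_of_dvd (by norm_num) h
      omega)
    exact_mod_cast h
  have h2p : (2 : k[X]) ≠ 0 := by
    have := C_ne_zero.2 h2k
    rwa [map_ofNat C 2] at this
  have h4p : (4 : k[X]) ≠ 0 := by
    have : (4 : k[X]) = 2 * 2 := by norm_num
    rw [this]
    exact mul_ne_zero h2p h2p
  set q := p ^ a with hqdef
  set s := 2 * q - 1 with hs
  have hs5 : 5 ≤ s := by omega
  induction N with
  | zero => intro n e W _ _ _ h1 h2 _; omega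
  | succ N ih =>
    intro n e W hn he hcop hN hpos hW
    set Z := n ^ s - e ^ s with hZ
    have hcops : IsCoprime (n ^ s) (e ^ s) := hcop.pow
    have hZ0 : Z ≠ 0 := by
      intro h0
      have h1 : n ^ s = e ^ s := sub_eq_zero.1 h0
      rw [h1, isCoprime_self] at hcops
      have h2 : IsUnit e := (isUnit_pow_iff (by omega)).1 hcops
      have h3 : IsUnit n := by
        rw [← h1] at hcops
        exact (isUnit_pow_iff (by omega)).1 hcops
      have h4 := natDegree_eq_zero_of_isUnit h2
      have h5 := natDegree_eq_zero_of_isUnit h3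
      omega
    set i := s * (q - 1) with hi
    set j := s * (q + 1) with hj
    have hprod : (W - Z ^ q) * (W + Z ^ q) = 4 * (n ^ i * e ^ j) := by
      have : (Z ^ q) ^ 2 = Z ^ (2 * q) := by rw [← pow_mul, mul_comm]
      calc (W - Z ^ q) * (W + Z ^ q) = W ^ 2 - (Z ^ q) ^ 2 := by ring
        _ = _ := by rw [hW, this]; ring
    have hprod0 : (W - Z ^ q) * (W + Z ^ q) ≠ 0 := by
      rw [hprod]
      exact mul_ne_zero h4p (mul_ne_zero (pow_ne_zero _ hn) (pow_ne_zero _ he))
    set u := W - Z ^ q with hu
    set v := W + Z ^ q with hv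
    have hu0 : u ≠ 0 := left_ne_zero_of_mul hprod0
    have hv0 : v ≠ 0 := right_ne_zero_of_mul hprod0
    have hneZ : ∀ γ : k, (n.eval γ = 0 ∨ e.eval γ = 0) → Z.eval γ ≠ 0 := by
      intro γ h h0
      rw [hZ, eval_sub, eval_pow, eval_pow] at h0
      obtain ⟨x, y, hxy⟩ := hcop
      have h1 := congrArg (Polynomial.eval γ) hxy
      rw [eval_add, eval_mul, eval_mul, eval_one] at h1
      rcases h with h | h
      · rw [h, zero_pow (by omega), zero_sub, neg_eq_zero] at h0
        have h2 := (pow_eq_zero_iff (by omega)).1 h0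
        rw [h, h2] at h1
        simp at h1
      · rw [h, zero_pow (by omega : s ≠ 0), sub_zero] at h0
        have h2 := (pow_eq_zero_iff (by omega)).1 h0
        rw [h, h2] at h1
        simp at h1
    have hprodroot : ∀ γ : k, u.eval γ = 0 ∨ v.eval γ = 0 → n.eval γ = 0 ∨ e.eval γ = 0 := by
      intro γ h
      have h1 := congrArg (Polynomial.eval γ) hprod
      have h2 : (u * v).eval γ = 0 := by
        rw [eval_mul]
        rcases h with h | h
        · rw [h, zero_mul]
        · rw [h, mul_zero]
      rw [h2, eval_mul, eval_mul, eval_pow, eval_pow] at h1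
      have h4 : (4 : k[X]).eval γ ≠ 0 := by
        have : (4 : k[X]) = C 4 := (map_ofNat C 4).symm
        rw [this, eval_C]
        have : (4 : k) = 2 * 2 := by norm_num
        rw [this]
        exact mul_ne_zero h2k h2k
      rcases mul_eq_zero.1 h1.symm with h | h
      · exact absurd h h4
      · rcases mul_eq_zero.1 h with h | h
        · exact Or.inl (eq_zero_of_pow_eq_zero h)
        · exact Or.inr (eq_zero_of_pow_eq_zero h)
    have hcopuv : IsCoprime u v := by
      rw [Polynomial.isCoprime_iff_aeval_ne_zero_of_isAlgClosed k k u v]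
      intro γ
      by_contra hcon
      push Not at hcon
      obtain ⟨z1, z2⟩ := hcon
      rw [coe_aeval_eq_eval] at z1 z2
      refine hneZ γ (hprodroot γ (Or.inl z1)) ?_
      rw [hu, eval_sub, eval_pow] at z1
      rw [hv, eval_add, eval_pow] at z2
      have : 2 * (Z.eval γ) ^ q = 0 := by linear_combination z2 - z1
      exact eq_zero_of_pow_eq_zero ((mul_eq_zero.1 this).resolve_left h2k)
    have hc0 : 2 * Z ^ q ≠ 0 := mul_ne_zero h2p (pow_ne_zero _ hZ0)
    rcases Polynomial.abc (a := u) (b := -v) (c := 2 * Z ^ q) hu0 (neg_ne_zero.2 hv0) hc0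
      ((IsCoprime.neg_right_iff _ _).2 hcopuv) (by rw [hu, hv]; ring) with
      ⟨h1, h2, h3⟩ | ⟨h1, h2, -⟩
    · have hrad : radical (u * -v * (2 * Z ^ q)) ∣ n * e * Z := by
        apply radical_dvd_of_roots (mul_ne_zero (mul_ne_zero hn he) hZ0)
        intro γ hγ
        rw [eval_mul, eval_mul, eval_neg, eval_mul, eval_pow] at hγ
        rw [eval_mul, eval_mul]
        rcases mul_eq_zero.1 hγ with h | h
        · have h' : u.eval γ = 0 ∨ v.eval γ = 0 := by
            rcases mul_eq_zero.1 h with h | h
            · exact Or.inl h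
            · exact Or.inr (neg_eq_zero.1 h)
          rcases hprodroot γ h' with h | h
          · rw [h]; ring
          · rw [h]; ring
        · have h4 : (2 : k[X]).eval γ ≠ 0 := by
            have : (2 : k[X]) = C 2 := (map_ofNat C 2).symm
            rw [this, eval_C]
            exact h2k
          rw [eq_zero_of_pow_eq_zero ((mul_eq_zero.1 h).resolve_left h4)]
          ring
      have hle := natDegree_le_of_dvd hrad (mul_ne_zero (mul_ne_zero hn he) hZ0)
      rw [natDegree_mul (mul_ne_zero hn he) hZ0, natDegree_mul hn he] at hle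
      have hdc : (2 * Z ^ q).natDegree = q * Z.natDegree := by
        have : (2 : k[X]) = C 2 := (map_ofNat C 2).symm
        rw [this, natDegree_C_mul h2k, natDegree_pow]
      rw [hdc] at h3
      rw [natDegree_neg] at h2
      have hduv := congrArg natDegree hprod
      rw [natDegree_mul hu0 hv0] at hduv
      have h4' : (4 * (n ^ i * e ^ j)).natDegree = i * n.natDegree + j * e.natDegree := by
        have e4 : (4 : k[X]) = C 4 := (map_ofNat C 4).symm
        have e5 : (4 : k) ≠ 0 := by
          have : (4 : k) = 2 * 2 := by norm_num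
          rw [this]
          exact mul_ne_zero h2k h2k
        rw [e4, natDegree_C_mul e5, natDegree_mul (pow_ne_zero _ hn) (pow_ne_zero _ he),
          natDegree_pow, natDegree_pow]
      rw [h4'] at hduv
      have hi10 : 10 ≤ i := by
        calc 10 = 5 * 2 := by norm_num
          _ ≤ s * (q - 1) := Nat.mul_le_mul hs5 (by omega)
      have hj10 : 10 ≤ j := by
        calc 10 ≤ 5 * 4 := by norm_num
          _ ≤ s * (q + 1) := Nat.mul_le_mul hs5 (by omega)
      have k1 : 10 * n.natDegree ≤ i * n.natDegree := Nat.mul_le_mul_right _ hi10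
      have k2 : 10 * e.natDegree ≤ j * e.natDegree := Nat.mul_le_mul_right _ hj10
      have k3 : 3 * Z.natDegree ≤ q * Z.natDegree := Nat.mul_le_mul_right _ hq
      omega
    · rw [derivative_neg, neg_eq_zero] at h2
      -- `i = 1`, `j = -1` in `k`
      have hqk : ((q : ℕ) : k) = 0 := by
        rw [CharP.cast_eq_zero_iff k p, hqdef]
        exact dvd_pow_self p (by omega)
      have hsk : ((s : ℕ) : k) = -1 := by
        rw [hs, Nat.cast_sub (by omega), Nat.cast_mul, hqk]; simp
      have hik : ((i : ℕ) : k) = 1 := by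
        rw [hi, Nat.cast_mul, hsk, Nat.cast_sub (by omega), hqk]; simp
      have hjk : ((j : ℕ) : k) = -1 := by
        rw [hj, Nat.cast_mul, hsk, Nat.cast_add, hqk]; simp
      have hi1 : 1 ≤ i := by
        have : 5 * 2 ≤ s * (q - 1) := Nat.mul_le_mul hs5 (by omega)
        omega
      have hj1 : 1 ≤ j := by
        have : 5 * 4 ≤ s * (q + 1) := Nat.mul_le_mul hs5 (by omega)
        omega
      have hdp : derivative (n ^ i * e ^ j) = 0 := by
        have h3 := congrArg derivative hprod
        rw [derivative_mul, h1, h2, derivative_mul] at h3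
        have h5 : derivative (4 : k[X]) = 0 := by
          have : (4 : k[X]) = C 4 := (map_ofNat C 4).symm
          rw [this, derivative_C]
        rw [h5] at h3
        simp only [zero_mul, mul_zero, add_zero, zero_add] at h3
        exact (mul_eq_zero.1 h3.symm).resolve_left h4p
      have hwr : derivative n * e - n * derivative e = 0 := by
        rw [derivative_mul, derivative_pow, derivative_pow, hik, hjk] at hdp
        have e1 : n ^ i = n ^ (i - 1) * n := by rw [← pow_succ]; congr 1; omega
        have e2 : e ^ j = e ^ (j - 1) * e := by rw [← pow_succ]; congr 1; omega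
        have h3 : n ^ (i - 1) * e ^ (j - 1) * (derivative n * e - n * derivative e) = 0 := by
          rw [← hdp]
          conv_rhs => rw [e1, e2]
          simp only [C_neg, C_1]
          ring
        exact (mul_eq_zero.1 h3).resolve_left (mul_ne_zero (pow_ne_zero _ hn) (pow_ne_zero _ he))
      have hn' : derivative n = 0 := by
        apply Polynomial.dvd_derivative_iff.1
        have : n ∣ derivative n * e := ⟨derivative e, sub_eq_zero.1 hwr⟩
        exact hcop.dvd_of_dvd_mul_right this
      have he' : derivative e = 0 := by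
        apply Polynomial.dvd_derivative_iff.1
        have : e ∣ n * derivative e := ⟨derivative n, by
          rw [mul_comm e]; exact (sub_eq_zero.1 hwr).symm⟩
        exact hcop.symm.dvd_of_dvd_mul_left this
      have hW' : derivative W = 0 := by
        have h3 : u + v = 2 * W := by rw [hu, hv]; ring
        have h5 := congrArg derivative h3
        rw [derivative_add, h1, h2, derivative_mul] at h5
        have h6 : derivative (2 : k[X]) = 0 := by
          have : (2 : k[X]) = C 2 := (map_ofNat C 2).symm
          rw [this, derivative_C]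
        rw [h6] at h5
        simp only [zero_mul, zero_add, add_zero] at h5
        exact (mul_eq_zero.1 h5.symm).resolve_left h2p
      obtain ⟨n1, hn1⟩ := exists_pth_root (p := p) hn'
      obtain ⟨e1, he1⟩ := exists_pth_root (p := p) he'
      obtain ⟨W1, hW1⟩ := exists_pth_root (p := p) hW'
      have h4pow : (4 : k[X]) ^ p = 4 := by
        have := map_ofNat (frobenius k[X] p) 4
        rw [frobenius_def] at this
        exact this
      have hW2 : W1 ^ 2 = (n1 ^ s - e1 ^ s) ^ (2 * q) + 4 * (n1 ^ i * e1 ^ j) := by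
        apply frobenius_inj k[X] p
        rw [frobenius_def, frobenius_def, add_pow_char, mul_pow, mul_pow, h4pow,
          pow_right_comm W1 2 p, pow_right_comm _ (2 * q) p, sub_pow_char,
          pow_right_comm n1 s p, pow_right_comm e1 s p, pow_right_comm n1 i p,
          pow_right_comm e1 j p, hW1, hn1, he1, hW]
      have hn10 : n1 ≠ 0 := by
        rintro rfl
        rw [zero_pow (by omega)] at hn1
        exact hn hn1.symm
      have he10 : e1 ≠ 0 := by
        rintro rfl
        rw [zero_pow (by omega)] at he1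
        exact he he1.symm
      have hcop1 : IsCoprime n1 e1 := by
        rw [← hn1, ← he1] at hcop
        exact (IsCoprime.pow_iff (by omega) (by omega)).1 hcop
      have d1 : n.natDegree = p * n1.natDegree := by rw [← hn1, natDegree_pow]
      have d2 : e.natDegree = p * e1.natDegree := by rw [← he1, natDegree_pow]
      have d3 : n.natDegree + e.natDegree = p * (n1.natDegree + e1.natDegree) := by
        rw [d1, d2]; ring
      have d4 : 2 * (n1.natDegree + e1.natDegree) ≤ p * (n1.natDegree + e1.natDegree) :=
        Nat.mul_le_mul_right _ (by omega)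
      have d5 : 0 < n1.natDegree + e1.natDegree := by
        rcases Nat.eq_zero_or_pos (n1.natDegree + e1.natDegree) with h0 | h0
        · rw [h0] at d3; omega
        · exact h0
      exact ih n1 e1 W1 hn10 he10 hcop1 (by omega) d5 hW2

end

end Pool.Agent.H987R3
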