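import Mathlib
import Pool.Agent.H987R3.UniI
import Pool.Agent.H987R3.UniG
set_option autoImplicit false

/-!
`m = 2`, `p` odd: tails and arbitrary constant fields.
-/

namespace Pool.Agent.H987R3
open Polynomial Function UniqueFactorizationMonoid

variable {k : Type*} [Field k]

section
variable [IsAlgClosed k] {p : ℕ} [Fact p.Prime] [CharP k p] {a : ℕ}

theorem no_square_rat (ha : 1 ≤ a) (hp2 : p ≠ 2) {γ U : RatFunc k}
    (hγ : ∀ z : k, γ ≠ RatFunc.C z) :
    U ^ 2 ≠ ((γ ^ (2 * p ^ a - 1)) ^ (p ^ a) - 1) ^ 2 + 4 * (γ ^ (2 * p ^ a - 1)) ^ (p ^ a - 1) := by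
  intro h
  have hp := (Fact.out : p.Prime)
  have : CharP (RatFunc k) p := charP_of_injective_algebraMap (algebraMap k (RatFunc k)).injective p
  have hq : 1 ≤ p ^ a := Nat.pos_of_ne_zero (pow_ne_zero _ hp.ne_zero)
  have hγ0 : γ ≠ 0 := by
    have := hγ 0
    rwa [map_zero] at this
  set q := p ^ a with hqdef
  set s := 2 * q - 1 with hs
  set ι := algebraMap k[X] (RatFunc k) with hι
  have hn0 : γ.num ≠ 0 := RatFunc.num_ne_zero hγ0
  have he0 : γ.denom ≠ 0 := γ.denom_ne_zero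
  have hιe : ι γ.denom ≠ 0 := (map_ne_zero_iff _ (RatFunc.algebraMap_injective k)).2 he0
  have hγe : γ = ι γ.num / ι γ.denom := (RatFunc.num_div_denom γ).symm
  have hG : γ ^ s * ι γ.denom ^ s = ι γ.num ^ s := by
    rw [← mul_pow]
    congr 1
    exact (eq_div_iff hιe).1 hγe
  set A := ι γ.num ^ s with hA
  set E := ι γ.denom ^ s with hE
  set G := γ ^ s with hGdef
  have key : (U * E ^ q) ^ 2 = ι ((γ.num ^ s - γ.denom ^ s) ^ (2 * q) +
      4 * (γ.num ^ (s * (q - 1)) * γ.denom ^ (s * (q + 1)))) := by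
    have h1 : ι ((γ.num ^ s - γ.denom ^ s) ^ (2 * q) +
        4 * (γ.num ^ (s * (q - 1)) * γ.denom ^ (s * (q + 1)))) =
        ((A - E) ^ q) ^ 2 + 4 * (A ^ (q - 1) * E ^ (q + 1)) := by
      have x1 : ((A - E) ^ q) ^ 2 = (A - E) ^ (2 * q) := by rw [← pow_mul, mul_comm q 2]
      have x2 : A ^ (q - 1) = ι γ.num ^ (s * (q - 1)) := by rw [hA, ← pow_mul]
      have x3 : E ^ (q + 1) = ι γ.denom ^ (s * (q + 1)) := by rw [hE, ← pow_mul]
      rw [x1, x2, x3, hA, hE]
      simp only [map_add, map_mul, map_pow, map_sub, map_ofNat]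
    rw [h1, hqdef, sub_pow_char_pow, ← hqdef, ← hG, mul_pow U, h]
    have h2 : E ^ (2 * q) = E ^ (q - 1) * E ^ (q + 1) := by
      rw [← pow_add]; congr 1; omega
    have h3 : (E ^ q) ^ 2 = E ^ (2 * q) := by rw [← pow_mul, mul_comm]
    calc ((G ^ q - 1) ^ 2 + 4 * G ^ (q - 1)) * (E ^ q) ^ 2 =
        ((G * E) ^ q - E ^ q) ^ 2 + 4 * G ^ (q - 1) * (E ^ q) ^ 2 := by
          rw [mul_pow G E]; ring
      _ = ((G * E) ^ q - E ^ q) ^ 2 + 4 * ((G * E) ^ (q - 1) * E ^ (q + 1)) := by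
          rw [h3, h2, mul_pow G E]; ring
  obtain ⟨W, hW⟩ : ∃ W : k[X], ι W = U * E ^ q := by
    apply IsIntegrallyClosed.exists_algebraMap_eq_of_isIntegral_pow (R := k[X]) (n := 2) (by omega)
    rw [key]
    exact isIntegral_algebraMap
  rw [← hW, ← map_pow] at key
  have key2 := RatFunc.algebraMap_injective k key
  refine no_square ha hp2 (γ.num.natDegree + γ.denom.natDegree) γ.num γ.denom W hn0 he0
    γ.isCoprime_num_denom le_rfl ?_ key2
  rcases Nat.eq_zero_or_pos (γ.num.natDegree + γ.denom.natDegree) with h0 | h0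
  · exfalso
    obtain ⟨x, hx⟩ := const_of_deg (z := γ) (by omega) (by omega)
    exact hγ x hx
  · exact h0

/-- the negative of a point of a 2-cycle has no preimage -/
theorem tail_two (ha : 1 ≤ a) (hp2 : p ≠ 2) {c : RatFunc k}
    (hc : ∀ x : k, c ≠ RatFunc.C x) {x y T : RatFunc k} (hx : uni (p ^ a * 2) c x = y)
    (hy : uni (p ^ a * 2) c y = x) (hxy : x ≠ y) (hT : uni (p ^ a * 2) c T = -y) : False := by
  have hp := (Fact.out : p.Prime)
  have : CharP (RatFunc k) p := charP_of_injective_algebraMap (algebraMap k (RatFunc k)).injective p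
  have hp3 : 3 ≤ p := by
    have := hp.two_le
    omega
  have h2k : (2 : k) ≠ 0 := by
    have h := (CharP.cast_eq_zero_iff k p 2).not.2 (fun h => by
      have := Nat.le_of_dvd (by norm_num) h
      omega)
    exact_mod_cast h
  have h2K : (2 : RatFunc k) ≠ 0 := by
    have := (map_ne_zero_iff _ RatFunc.C_injective).2 h2k
    rwa [map_ofNat (RatFunc.C : k →+* RatFunc k) 2] at this
  have hq1 : 3 ≤ p ^ a := by
    calc 3 ≤ p := hp3
      _ = p ^ 1 := (pow_one p).symm
      _ ≤ p ^ a := Nat.pow_le_pow_right (by omega) ha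
  have e1 : x ^ (p ^ a * 2) + c = y := hx
  have e2 : y ^ (p ^ a * 2) + c = x := hy
  have e3 : T ^ (p ^ a * 2) + c = -y := hT
  have sub2 : ∀ u v : RatFunc k, (u ^ 2 - v ^ 2) ^ (p ^ a) = u ^ (p ^ a * 2) - v ^ (p ^ a * 2) := by
    intro u v
    rw [sub_pow_char_pow, ← pow_mul, ← pow_mul, mul_comm 2]
  have h2q : (2 : RatFunc k) ^ (p ^ a) = 2 := by
    have := map_ofNat (iterateFrobenius (RatFunc k) p a) 2
    rwa [iterateFrobenius_def] at this
  set δ := x ^ 2 - y ^ 2 with hδ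
  have hδq : δ ^ (p ^ a) = y - x := by
    rw [hδ, sub2]
    linear_combination e1 - e2
  set R := (x ^ 2 - T ^ 2) / 2 with hR
  have hRq : R ^ (p ^ a) = y := by
    rw [hR, div_pow, sub2, h2q, div_eq_iff h2K]
    linear_combination e1 - e3
  set V := R - δ with hV
  have hVq : V ^ (p ^ a) = x := by
    rw [hV, sub_pow_char_pow, hRq, hδq]; ring
  set γ := V ^ 2 - R ^ 2 with hγdef
  have hγq : γ ^ (p ^ a) = δ := by
    rw [hγdef, sub2, pow_mul, pow_mul, hVq, hRq]
  have hδ0 : δ ≠ 0 := by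
    intro h0
    rw [h0, zero_pow (by omega)] at hδq
    exact hxy (sub_eq_zero.1 hδq.symm).symm
  obtain ⟨r, hr⟩ : ∃ r, p ^ a = r + 1 := ⟨p ^ a - 1, by omega⟩
  set D := δ ^ r with hD
  have hDδ : δ ^ (p ^ a) = D * δ := by rw [hr, pow_succ]
  have hxyD : (x + y) * D = -1 := by
    apply mul_right_cancel₀ hδ0
    have h1 : D * δ = y - x := by rw [← hDδ, hδq]
    calc (x + y) * D * δ = (x + y) * (D * δ) := by ring
      _ = (x + y) * (y - x) := by rw [h1]
      _ = -1 * δ := by rw [hδ]; ring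
  have hs : 2 * p ^ a - 1 = 2 * r + 1 := by omega
  have hΓq : (γ ^ (2 * p ^ a - 1)) ^ (p ^ a) = D ^ 2 * δ := by
    rw [pow_right_comm, hγq, hs, hD, ← pow_mul, ← pow_succ, mul_comm r 2]
  have hΓr : D ^ 2 * γ = (γ ^ (2 * p ^ a - 1)) ^ (p ^ a - 1) * δ := by
    have h1 : p ^ a - 1 = r := by omega
    have x1 : δ = γ ^ (r + 1) := by rw [← hr]; exact hγq.symm
    rw [hs, h1, hD, ← pow_mul]
    have x2 : ∀ n : ℕ, δ ^ n = γ ^ ((r + 1) * n) := by
      intro n
      rw [pow_mul, ← x1]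
    rw [x2, ← pow_succ, ← pow_mul]
    conv_rhs => rw [x1]
    rw [← pow_add]
    congr 1
    ring
  refine no_square_rat ha hp2 (γ := γ) (U := 2 * T * D) ?_ ?_
  · intro z hz
    have w1 : y - x = RatFunc.C ((z ^ (p ^ a)) ^ (p ^ a)) := by
      rw [← hδq, ← hγq, hz, ← map_pow, ← map_pow]
    have hD2 : D = RatFunc.C ((z ^ (p ^ a)) ^ r) := by
      rw [hD, ← hγq, hz, ← map_pow, ← map_pow]
    have hD0 : D ≠ 0 := pow_ne_zero _ hδ0
    have w2 : x + y = RatFunc.C (-((z ^ (p ^ a)) ^ r)⁻¹) := by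
      rw [map_neg, map_inv₀, ← hD2]
      field_simp
      linear_combination hxyD
    set w := (z ^ (p ^ a)) ^ (p ^ a) with hw
    set w' := -((z ^ (p ^ a)) ^ r)⁻¹ with hw'
    have hx' : x = RatFunc.C ((w' - w) / 2) := by
      rw [map_div₀, map_sub, map_ofNat, ← w1, ← w2, eq_div_iff h2K]
      ring
    have hy' : y = RatFunc.C ((w' + w) / 2) := by
      rw [map_div₀, map_add, map_ofNat, ← w1, ← w2, eq_div_iff h2K]
      ring
    apply hc ((w' + w) / 2 - ((w' - w) / 2) ^ (p ^ a * 2))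
    rw [map_sub, map_pow, ← hx', ← hy']
    linear_combination e1
  · have hR2 : 2 * R = x ^ 2 - T ^ 2 := by
      rw [hR, mul_div_cancel₀ _ h2K]
    have hRδ : 2 * R * δ = δ ^ 2 - γ := by
      rw [hγdef, hV]; ring
    have h8 : 8 * R * D ^ 2 = 4 * (D ^ 2 * δ) - 4 * (γ ^ (2 * p ^ a - 1)) ^ (p ^ a - 1) := by
      apply mul_right_cancel₀ hδ0
      linear_combination 4 * D ^ 2 * hRδ - 4 * hΓr
    have hxD : 2 * x * D = -1 - D ^ 2 * δ := by
      have h1 : D * δ = y - x := by rw [← hDδ, hδq]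
      linear_combination hxyD + D * h1
    rw [hΓq]
    have : (2 * T * D) ^ 2 = (2 * x * D) ^ 2 - 8 * R * D ^ 2 := by
      linear_combination (4 * D ^ 2) * hR2
    rw [this, hxD, h8]
    ring

theorem pre_closed_two (ha : 1 ≤ a) (hp2 : p ≠ 2) {c : RatFunc k}
    (hc : ∀ x : k, c ≠ RatFunc.C x) (n : ℕ) :
    ∀ P : RatFunc k, (uni (p ^ a * 2) c)^[n] P ∈ periodicPts (uni (p ^ a * 2) c) →
    uni (p ^ a * 2) c P ∈ periodicPts (uni (p ^ a * 2) c) := by
  have hp := (Fact.out : p.Prime)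
  have hp3 : 3 ≤ p := by
    have := hp.two_le
    omega
  have hq1 : 3 ≤ p ^ a := by
    calc 3 ≤ p := hp3
      _ = p ^ 1 := (pow_one p).symm
      _ ≤ p ^ a := Nat.pow_le_pow_right (by omega) ha
  have hpm : ¬ p ∣ 2 := fun h => by
    have := Nat.le_of_dvd (by norm_num) h
    omega
  induction n with
  | zero => intro P hP; exact next_mem hP
  | succ n ih =>
    intro T hP
    rcases Nat.eq_zero_or_pos n with h0 | h0
    · subst h0; exact hP
    · rw [iterate_succ_apply] at hP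
      have h1 := ih _ hP
      set f := uni (p ^ a * 2) c with hf
      -- `Q = f (f T)` is periodic, `Q'` its periodic preimage
      obtain ⟨Q', hQ', hQQ'⟩ := (bijOn_periodicPts f).surjOn h1
      have h2 : (f T) ^ 2 = Q' ^ 2 := by
        apply frob_inj_rat (p := p) (a := a)
        have e1 : Q' ^ (p ^ a * 2) + c = (f T) ^ (p ^ a * 2) + c := hQQ'
        exact (add_right_cancel e1).symm
      rcases sq_eq_sq_iff_eq_or_eq_neg.1 h2 with h3 | h3
      · rw [h3]; exact hQ'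
      · obtain ⟨Q2, hQ2, hQ2Q'⟩ := (bijOn_periodicPts f).surjOn hQ'
        by_cases hfix : Q2 = Q'
        · -- fixed point
          rw [hfix] at hQ2Q'
          have h4 : f (f T) = Q' := hQQ'.symm.trans hQ2Q'
          have h5 := tail_one ha le_rfl hpm (by omega) hc hQ2Q' h4
          rw [← hf] at h5
          rw [h5]; exact hQ'
        · exfalso
          have h6 : f Q' ≠ Q' := by
            intro h
            exact hfix ((bijOn_periodicPts f).injOn hQ2 hQ' (hQ2Q'.trans h.symm))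
          rcases two_closed ha hp2 hc (next_mem hQ') hQ' hQ2 with h | h | h
          · exact h6 h
          · exact tail_two ha hp2 hc hQ2Q' h hfix h3
          · exact hfix h.symm

end

section general
variable {p : ℕ} [Fact p.Prime] [CharP k p] {a : ℕ}

theorem two_per (ha : 1 ≤ a) (hp2 : p ≠ 2) {c : RatFunc k}
    (hc : ∀ x : k, c ≠ RatFunc.C x) {P Q O : RatFunc k} (hP : P ∈ periodicPts (uni (p ^ a * 2) c))
    (hQ : Q ∈ periodicPts (uni (p ^ a * 2) c)) (hO : O ∈ periodicPts (uni (p ^ a * 2) c)) :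
    P = Q ∨ P = O ∨ Q = O := by
  have : CharP (AlgebraicClosure k) p :=
    charP_of_injective_algebraMap (algebraMap k (AlgebraicClosure k)).injective p
  rcases two_closed ha hp2 (tau_nonconst hc) (tau_per.2 hP) (tau_per.2 hQ) (tau_per.2 hO)
    with h | h | h
  · exact Or.inl ((tau k).injective h)
  · exact Or.inr (Or.inl ((tau k).injective h))
  · exact Or.inr (Or.inr ((tau k).injective h))

theorem pre_per_two (ha : 1 ≤ a) (hp2 : p ≠ 2) {c : RatFunc k}
    (hc : ∀ x : k, c ≠ RatFunc.C x) {n r : ℕ} (hr : 1 ≤ r) {P : RatFunc k}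
    (h : (uni (p ^ a * 2) c)^[n + r] P = (uni (p ^ a * 2) c)^[n] P) :
    uni (p ^ a * 2) c P ∈ periodicPts (uni (p ^ a * 2) c) := by
  have : CharP (AlgebraicClosure k) p :=
    charP_of_injective_algebraMap (algebraMap k (AlgebraicClosure k)).injective p
  have h0 : (uni (p ^ a * 2) c)^[n] P ∈ periodicPts (uni (p ^ a * 2) c) := by
    refine ⟨r, hr, ?_⟩
    change (uni (p ^ a * 2) c)^[r] ((uni (p ^ a * 2) c)^[n] P) = _
    rw [← iterate_add_apply, add_comm r n, h]
  rw [← tau_per] at h0 ⊢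
  have h1 := ((tau_semi (p ^ a * 2) c).iterate_right n) P
  have h2 := (tau_semi (p ^ a * 2) c) P
  rw [h1] at h0
  rw [h2]
  exact pre_closed_two ha hp2 (tau_nonconst hc) n _ h0

end general

end Pool.Agent.H987R3
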