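import Mathlib
import Pool.Agent.H987R3.UniJ
set_option autoImplicit false

/-!
`m = 2`: examples with a 2-cycle.
-/

namespace Pool.Agent.H987R3
open Polynomial Function

variable {k : Type*} [Field k]

theorem X_pow_ne (n : ℕ) (hn : 1 ≤ n) (z : k) : (RatFunc.X : RatFunc k) ^ n ≠ RatFunc.C z := by
  intro h
  rw [← RatFunc.algebraMap_X, ← RatFunc.algebraMap_C, ← map_pow] at h
  have h1 := RatFunc.algebraMap_injective k h
  have h2 := congrArg natDegree h1
  rw [natDegree_X_pow, natDegree_C] at h2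
  omega

theorem sharp_two {p : ℕ} [Fact p.Prime] [CharP k p] {a : ℕ} (ha : 1 ≤ a) (hp2 : p ≠ 2) :
    ∃ c x y : RatFunc k, (∀ z : k, c ≠ RatFunc.C z) ∧ uni (p ^ a * 2) c x = y ∧
      uni (p ^ a * 2) c y = x ∧ x ≠ y ∧ x ≠ -y ∧ x ≠ 0 ∧ y ≠ 0 := by
  have hp := (Fact.out : p.Prime)
  have : CharP (RatFunc k) p := charP_of_injective_algebraMap (algebraMap k (RatFunc k)).injective p
  have hp3 : 3 ≤ p := by
    have := hp.two_le
    omega
  have h2k : (2 : k) ≠ 0 := by
    have h := (CharP.cast_eq_zero_iff k p 2).not.2 (fun h => by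
      have := Nat.le_of_dvd (by norm_num) h
      omega)
    exact_mod_cast h
  have h2K : (2 : RatFunc k) ≠ 0 := by
    have := (map_ne_zero_iff _ RatFunc.C_injective).2 h2k
    rwa [map_ofNat (RatFunc.C : k →+* RatFunc k) 2] at this
  have hq1 : 3 ≤ p ^ a := by
    calc 3 ≤ p := hp3
      _ = p ^ 1 := (pow_one p).symm
      _ ≤ p ^ a := Nat.pow_le_pow_right (by omega) ha
  obtain ⟨r, hr⟩ : ∃ r, p ^ a = r + 1 := ⟨p ^ a - 1, by omega⟩
  have hX : (RatFunc.X : RatFunc k) ≠ 0 := RatFunc.X_ne_zero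
  set t : RatFunc k := RatFunc.X with ht
  set D := t ^ r with hD
  have hD0 : D ≠ 0 := pow_ne_zero _ hX
  set x := (-D⁻¹ - D * t) / 2 with hx
  set y := (D * t - D⁻¹) / 2 with hy
  have hDt : D * t = t ^ (p ^ a) := by rw [hD, hr, pow_succ]
  have hs : x + y = -D⁻¹ := by rw [hx, hy]; field_simp; ring
  have hdiff : y - x = t ^ (p ^ a) := by rw [← hDt, hx, hy]; field_simp; ring
  have hsq : x ^ 2 - y ^ 2 = t := by
    have : x ^ 2 - y ^ 2 = -((x + y) * (y - x)) := by ring
    rw [this, hs, hdiff, ← hDt]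
    field_simp
  have hxD : 2 * (x * D) = -(1 + t ^ (2 * r + 1)) := by
    have h1 : t ^ (2 * r + 1) = D ^ 2 * t := by rw [hD]; ring
    rw [h1, hx]; field_simp; ring
  have hyD : 2 * (y * D) = t ^ (2 * r + 1) - 1 := by
    have h1 : t ^ (2 * r + 1) = D ^ 2 * t := by rw [hD]; ring
    rw [h1, hy]; field_simp
  refine ⟨y - x ^ (p ^ a * 2), x, y, ?_, ?_, ?_, ?_, ?_, ?_, ?_⟩
  · intro z hz
    -- multiply by `4 D ^ (2 q)` and evaluate at `0`
    have h2q : (2 : RatFunc k) ^ (p ^ a * 2) = 4 := by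
      have := map_ofNat (iterateFrobenius (RatFunc k) p a) 2
      rw [iterateFrobenius_def] at this
      rw [pow_mul, this]; norm_num
    have h1 : 4 * RatFunc.C z * D ^ (p ^ a * 2) =
        2 * (t ^ (2 * r + 1) - 1) * D ^ (p ^ a * 2 - 1) - (1 + t ^ (2 * r + 1)) ^ (p ^ a * 2) := by
      have e1 : (1 + t ^ (2 * r + 1)) ^ (p ^ a * 2) = 4 * (x ^ (p ^ a * 2) * D ^ (p ^ a * 2)) := by
        have : (1 + t ^ (2 * r + 1)) ^ (p ^ a * 2) = (2 * (x * D)) ^ (p ^ a * 2) := by
          rw [hxD, Even.neg_pow (even_two.mul_left _)]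
        rw [this, mul_pow, mul_pow, h2q]
      have e2 : D ^ (p ^ a * 2) = D * D ^ (p ^ a * 2 - 1) := by
        rw [← pow_succ']; congr 1; omega
      rw [e1, ← hz, ← hyD]
      linear_combination (4 * y) * e2
    have h3 : C (4 * z) * Polynomial.X ^ (r * (p ^ a * 2)) =
        2 * (Polynomial.X ^ (2 * r + 1) - 1) * Polynomial.X ^ (r * (p ^ a * 2 - 1)) -
          (1 + Polynomial.X ^ (2 * r + 1)) ^ (p ^ a * 2) := by
      apply RatFunc.algebraMap_injective k
      simp only [map_mul, map_sub, map_add, map_pow, map_one, map_ofNat, RatFunc.algebraMap_X,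
        RatFunc.algebraMap_C]
      rw [← ht, pow_mul t, pow_mul t, ← hD]
      exact h1
    have h4 := congrArg (Polynomial.eval 0) h3
    have n1 : r * (p ^ a * 2) ≠ 0 := Nat.mul_ne_zero (by omega) (by omega)
    have n2 : r * (p ^ a * 2 - 1) ≠ 0 := Nat.mul_ne_zero (by omega) (by omega)
    simp only [eval_mul, eval_sub, eval_add, eval_pow, eval_X, eval_C, eval_one, zero_pow n1,
      zero_pow n2, mul_zero, zero_pow (Nat.succ_ne_zero (2 * r)), add_zero, one_pow, zero_sub] at h4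
    exact one_ne_zero (neg_eq_zero.1 h4.symm)
  · change x ^ (p ^ a * 2) + (y - x ^ (p ^ a * 2)) = y
    ring
  · change y ^ (p ^ a * 2) + (y - x ^ (p ^ a * 2)) = x
    have h1 : (x ^ 2 - y ^ 2) ^ (p ^ a) = x ^ (p ^ a * 2) - y ^ (p ^ a * 2) := by
      rw [sub_pow_char_pow, ← pow_mul, ← pow_mul, mul_comm 2]
    rw [hsq] at h1
    linear_combination h1 + hdiff
  · intro h
    rw [h, sub_self] at hdiff
    exact pow_ne_zero _ hX hdiff.symm
  · intro h
    rw [h, neg_add_cancel] at hs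
    exact inv_ne_zero hD0 (neg_eq_zero.1 hs.symm)
  · intro h
    rw [h, zero_mul, mul_zero] at hxD
    apply X_pow_ne (k := k) (2 * r + 1) (by omega) (-1)
    rw [map_neg, map_one]
    linear_combination hxD
  · intro h
    rw [h, zero_mul, mul_zero] at hyD
    apply X_pow_ne (k := k) (2 * r + 1) (by omega) 1
    rw [map_one]
    linear_combination -hyD

end Pool.Agent.H987R3
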