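import Mathlib
import Pool.Agent.H987R3.UniK
set_option autoImplicit false

/-!
# The unicritical family in characteristic dividing the degree

Let `k` be any field of characteristic `p > 0`, `K = k(t)`, and `d = p ^ a * m` with `a ≥ 1`,
`m ≥ 2` prime to `p`, that is: `d` is divisible by `p` and not a power of `p`.  For every
non-constant `c ∈ K` the polynomial `f(z) = z ^ d + c` has at most one periodic point in `K` if
`m ≥ 3`, at most two if `m = 2`; `f P` is periodic for every preperiodic point `P ∈ K`; and there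
are at most `m` preperiodic points in `K` if `m ≥ 3`, at most four if `m = 2`.  The bounds for
`m = 2` are attained.

Proof.  After extending constants, moving a non-pole of `c` to infinity and extracting `p`-th roots
of `c` and of the periodic points we may assume `dc ≠ 0`.  All periodic points have the same
denominator `B` (`B ^ d` is the denominator of `c`).  Two distinct periodic points `x, y` never
collide outside the poles of `c`, because `f x - f y = (x ^ m - y ^ m) ^ q`; hence
`x ^ m - y ^ m` is an `S`-unit, `S` the poles of `c`, and for `m ≥ 3` Mason-Stothers applies since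
`dx = dy = dc ≠ 0`.  For `m = 2` and three periodic points `x_1, x_2, x_3` Mason-Stothers is applied
to the three relations `(x_i + x_j) - (x_i + x_l) = x_j - x_l` between `S`-units; the common zeros
are controlled by coprimality, and every pole of `c` has multiplicity at least `2 d`.  If `f P` were
not periodic there would be a non-constant solution of `T ^ m = R ^ (q m) + κ R` or, for a 2-cycle,
of `W ^ 2 = (G - 1) ^ (2 q) + 4 G ^ (q - 1)`, `G` a `(2 q - 1)`-th power, excluded by
Mason-Stothers and descent.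
-/

namespace Pool.Agent.Results.MP_9b502d_nt.InseparableUnicriticalAll
open Pool.Agent.H987R3 Function

theorem encard_le_two {α : Type*} {S : Set α}
    (h : ∀ P ∈ S, ∀ Q ∈ S, ∀ O ∈ S, P = Q ∨ P = O ∨ Q = O) : S.encard ≤ 2 := by
  classical
  by_cases h0 : ∃ P ∈ S, ∃ Q ∈ S, P ≠ Q
  · obtain ⟨P, hP, Q, hQ, hPQ⟩ := h0
    have hsub : S ⊆ {P, Q} := by
      intro O hO
      rcases h P hP Q hQ O hO with h1 | h1 | h1
      · exact absurd h1 hPQ
      · left; exact h1.symm
      · right; exact h1.symm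
    exact (Set.encard_le_encard hsub).trans (Set.encard_pair hPQ).le
  · push Not at h0
    have : S.encard ≤ 1 := Set.encard_le_one_iff.2 fun P Q hP hQ => h0 P hP Q hQ
    exact this.trans (by norm_num)

theorem bounds (k : Type*) [Field k] (p : ℕ) [Fact p.Prime] [CharP k p] (a m : ℕ) (ha : 1 ≤ a)
    (hm : 2 ≤ m) (hpm : ¬ p ∣ m) (c : RatFunc k) (hc : ∀ x : k, c ≠ RatFunc.C x)
    (f : RatFunc k → RatFunc k) (hf : ∀ z, f z = z ^ (p ^ a * m) + c) :
    (∀ P : RatFunc k, (∃ n r : ℕ, 1 ≤ r ∧ f^[n + r] P = f^[n] P) → f P ∈ periodicPts f) ∧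
    (3 ≤ m → (∀ P Q : RatFunc k, P ∈ periodicPts f → Q ∈ periodicPts f → P = Q) ∧
      {P : RatFunc k | ∃ n r : ℕ, 1 ≤ r ∧ f^[n + r] P = f^[n] P}.encard ≤ m) ∧
    (m = 2 → (periodicPts f).encard ≤ 2 ∧
      {P : RatFunc k | ∃ n r : ℕ, 1 ≤ r ∧ f^[n + r] P = f^[n] P}.encard ≤ 4) := by
  classical
  have hfu : f = uni (p ^ a * m) c := by
    funext z; exact hf z
  subst hfu
  have hp := (Fact.out : p.Prime)
  have hcase : 3 ≤ m ∨ (m = 2 ∧ p ≠ 2) := by
    rcases Nat.lt_or_ge 2 m with h | h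
    · exact Or.inl h
    · right
      have h2 : m = 2 := le_antisymm h hm
      refine ⟨h2, ?_⟩
      rintro rfl
      exact hpm (by rw [h2])
  have h2 : ∀ P : RatFunc k, (∃ n r : ℕ, 1 ≤ r ∧ (uni (p ^ a * m) c)^[n + r] P =
      (uni (p ^ a * m) c)^[n] P) → uni (p ^ a * m) c P ∈ periodicPts (uni (p ^ a * m) c) := by
    rintro P ⟨n, r, hr, h⟩
    rcases hcase with hm3 | ⟨rfl, hp2⟩
    · exact pre_per ha hm3 hpm hc hr h
    · exact pre_per_two ha hp2 hc hr h
  refine ⟨h2, ?_, ?_⟩
  · intro hm3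
    have h1 : ∀ P Q : RatFunc k, P ∈ periodicPts (uni (p ^ a * m) c) →
        Q ∈ periodicPts (uni (p ^ a * m) c) → P = Q :=
      fun P Q hP hQ => unique_per ha hm3 hpm hc hP hQ
    refine ⟨h1, ?_⟩
    by_cases hne : ∃ P0 : RatFunc k, ∃ n r : ℕ, 1 ≤ r ∧ (uni (p ^ a * m) c)^[n + r] P0 =
        (uni (p ^ a * m) c)^[n] P0
    · obtain ⟨P0, hP0⟩ := hne
      set S := uni (p ^ a * m) c P0 with hS
      have hSper : S ∈ periodicPts (uni (p ^ a * m) c) := h2 P0 hP0
      have hSfix : uni (p ^ a * m) c S = S :=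
        h1 _ _ ((bijOn_periodicPts _).mapsTo hSper) hSper
      have hsub : {P : RatFunc k | ∃ n r : ℕ, 1 ≤ r ∧ (uni (p ^ a * m) c)^[n + r] P =
          (uni (p ^ a * m) c)^[n] P} ⊆
            ((Polynomial.nthRoots m (S ^ m)).toFinset : Set (RatFunc k)) := by
        intro P hP
        have h4 := h1 _ _ (h2 P hP) hSper
        have e1 : P ^ (p ^ a * m) + c = S := h4
        have e2 : S ^ (p ^ a * m) + c = S := hSfix
        have h5 : P ^ m = S ^ m := by
          apply frob_inj_rat (p := p) (a := a)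
          exact add_right_cancel (e1.trans e2.symm)
        rw [Finset.mem_coe, Multiset.mem_toFinset, Polynomial.mem_nthRoots (by omega)]
        exact h5
      calc _ ≤ ((Polynomial.nthRoots m (S ^ m)).toFinset : Set (RatFunc k)).encard :=
            Set.encard_le_encard hsub
        _ = ((Polynomial.nthRoots m (S ^ m)).toFinset.card : ℕ∞) :=
            Set.encard_coe_eq_coe_finsetCard _
        _ ≤ m := by
          have := (Multiset.toFinset_card_le (Polynomial.nthRoots m (S ^ m))).trans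
            (Polynomial.card_nthRoots m (S ^ m))
          exact_mod_cast this
    · have hempty : {P : RatFunc k | ∃ n r : ℕ, 1 ≤ r ∧ (uni (p ^ a * m) c)^[n + r] P =
          (uni (p ^ a * m) c)^[n] P} = ∅ := by
        ext P
        constructor
        · intro h; exact absurd ⟨P, h⟩ hne
        · intro h; exact absurd h (Set.notMem_empty P)
      rw [hempty]
      simp
  · rintro rfl
    have hp2 : p ≠ 2 := by
      rintro rfl
      exact hpm dvd_rfl
    have h3 : (periodicPts (uni (p ^ a * 2) c)).encard ≤ 2 :=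
      encard_le_two fun P hP Q hQ O hO => two_per ha hp2 hc hP hQ hO
    refine ⟨h3, ?_⟩
    have hsub : {P : RatFunc k | ∃ n r : ℕ, 1 ≤ r ∧ (uni (p ^ a * 2) c)^[n + r] P =
        (uni (p ^ a * 2) c)^[n] P} ⊆ periodicPts (uni (p ^ a * 2) c) ∪
          (fun z => -z) '' periodicPts (uni (p ^ a * 2) c) := by
      intro P hP
      have h4 := h2 P hP
      obtain ⟨S, hS, hSP⟩ := (bijOn_periodicPts (uni (p ^ a * 2) c)).surjOn h4
      have h5 : P ^ 2 = S ^ 2 := by
        apply frob_inj_rat (p := p) (a := a)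
        have e1 : S ^ (p ^ a * 2) + c = P ^ (p ^ a * 2) + c := hSP
        exact (add_right_cancel e1).symm
      rcases sq_eq_sq_iff_eq_or_eq_neg.1 h5 with h6 | h6
      · left; rw [h6]; exact hS
      · right; exact ⟨S, hS, h6.symm⟩
    calc _ ≤ (periodicPts (uni (p ^ a * 2) c) ∪
          (fun z => -z) '' periodicPts (uni (p ^ a * 2) c)).encard := Set.encard_le_encard hsub
      _ ≤ (periodicPts (uni (p ^ a * 2) c)).encard +
          ((fun z => -z) '' periodicPts (uni (p ^ a * 2) c)).encard := Set.encard_union_le _ _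
      _ ≤ 2 + 2 := add_le_add h3 ((Set.encard_image_le _ _).trans h3)
      _ = 4 := by norm_num

theorem result (k : Type*) [Field k] (p : ℕ) [Fact p.Prime] [CharP k p] (a m : ℕ) (ha : 1 ≤ a)
    (hm : 2 ≤ m) (hpm : ¬ p ∣ m) :
    (∀ c : RatFunc k, (∀ x : k, c ≠ RatFunc.C x) → ∀ f : RatFunc k → RatFunc k,
      (∀ z, f z = z ^ (p ^ a * m) + c) →
      (∀ P : RatFunc k, (∃ n r : ℕ, 1 ≤ r ∧ f^[n + r] P = f^[n] P) → f P ∈ periodicPts f) ∧
      (3 ≤ m → (∀ P Q : RatFunc k, P ∈ periodicPts f → Q ∈ periodicPts f → P = Q) ∧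
        {P : RatFunc k | ∃ n r : ℕ, 1 ≤ r ∧ f^[n + r] P = f^[n] P}.encard ≤ m) ∧
      (m = 2 → (periodicPts f).encard ≤ 2 ∧
        {P : RatFunc k | ∃ n r : ℕ, 1 ≤ r ∧ f^[n + r] P = f^[n] P}.encard ≤ 4)) ∧
    (m = 2 → ∃ c : RatFunc k, (∀ x : k, c ≠ RatFunc.C x) ∧ ∀ f : RatFunc k → RatFunc k,
      (∀ z, f z = z ^ (p ^ a * m) + c) → (periodicPts f).encard = 2 ∧
        {P : RatFunc k | ∃ n r : ℕ, 1 ≤ r ∧ f^[n + r] P = f^[n] P}.encard = 4) := by
  refine ⟨fun c hc f hf => bounds k p a m ha hm hpm c hc f hf, ?_⟩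
  rintro rfl
  have hp2 : p ≠ 2 := by
    rintro rfl
    exact hpm dvd_rfl
  obtain ⟨c, x, y, hc, hx, hy, hxy, hxy', hx0, hy0⟩ := sharp_two (k := k) (p := p) ha hp2
  refine ⟨c, hc, ?_⟩
  intro f hf
  have hfu : f = uni (p ^ a * 2) c := by
    funext z; exact hf z
  subst hfu
  obtain ⟨-, -, h3⟩ := bounds k p a 2 ha hm hpm c hc (uni (p ^ a * 2) c) (fun _ => rfl)
  obtain ⟨h4, h5⟩ := h3 rfl
  have hp := (Fact.out : p.Prime)
  have h2k : (2 : k) ≠ 0 := by
    have h := (CharP.cast_eq_zero_iff k p 2).not.2 (fun h => by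
      have := Nat.le_of_dvd (by norm_num) h
      have := hp.two_le
      omega)
    exact_mod_cast h
  have h2K : (2 : RatFunc k) ≠ 0 := by
    have := (map_ne_zero_iff _ RatFunc.C_injective).2 h2k
    rwa [map_ofNat (RatFunc.C : k →+* RatFunc k) 2] at this
  have hneg : ∀ z : RatFunc k, z ≠ 0 → z ≠ -z := by
    intro z hz h
    have : 2 * z = 0 := by linear_combination h
    exact mul_ne_zero h2K hz this
  have px : x ∈ periodicPts (uni (p ^ a * 2) c) := ⟨2, by norm_num, by
    change uni (p ^ a * 2) c (uni (p ^ a * 2) c x) = x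
    rw [hx, hy]⟩
  have py : y ∈ periodicPts (uni (p ^ a * 2) c) := ⟨2, by norm_num, by
    change uni (p ^ a * 2) c (uni (p ^ a * 2) c y) = y
    rw [hy, hx]⟩
  have hev : ∀ z : RatFunc k, uni (p ^ a * 2) c (-z) = uni (p ^ a * 2) c z := by
    intro z
    change (-z) ^ (p ^ a * 2) + c = z ^ (p ^ a * 2) + c
    rw [Even.neg_pow (even_two.mul_left _)]
  have hit : ∀ w : RatFunc k, (uni (p ^ a * 2) c)^[1 + 2] w =
      uni (p ^ a * 2) c (uni (p ^ a * 2) c (uni (p ^ a * 2) c w)) := fun w => rfl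
  have hit1 : ∀ w : RatFunc k, (uni (p ^ a * 2) c)^[1] w = uni (p ^ a * 2) c w := fun w => rfl
  refine ⟨le_antisymm h4 ?_, le_antisymm h5 ?_⟩
  · have hsub : ({x, y} : Set (RatFunc k)) ⊆ periodicPts (uni (p ^ a * 2) c) := by
      rintro z (rfl | rfl)
      · exact px
      · exact py
    exact (Set.encard_pair hxy).ge.trans (Set.encard_le_encard hsub)
  · have hsub : ({x, -x, y, -y} : Set (RatFunc k)) ⊆ {P : RatFunc k | ∃ n r : ℕ, 1 ≤ r ∧
        (uni (p ^ a * 2) c)^[n + r] P = (uni (p ^ a * 2) c)^[n] P} := by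
      rintro z (rfl | rfl | rfl | rfl)
      · exact ⟨1, 2, by norm_num, by rw [hit, hit1, hx, hy, hx]⟩
      · exact ⟨1, 2, by norm_num, by rw [hit, hit1, hev, hx, hy, hx]⟩
      · exact ⟨1, 2, by norm_num, by rw [hit, hit1, hy, hx, hy]⟩
      · exact ⟨1, 2, by norm_num, by rw [hit, hit1, hev, hy, hx, hy]⟩
    have h6 : ({x, -x, y, -y} : Set (RatFunc k)).encard = 4 := by
      rw [Set.encard_insert_of_notMem, Set.encard_insert_of_notMem, Set.encard_pair (hneg y hy0)]
      · norm_num
      · rintro (h | h)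
        · exact hxy' (by rw [← h, neg_neg])
        · exact hxy (neg_injective h)
      · rintro (h | h | h)
        · exact hneg x hx0 h
        · exact hxy h
        · exact hxy' h
    exact h6.ge.trans (Set.encard_le_encard hsub)

end Pool.Agent.Results.MP_9b502d_nt.InseparableUnicriticalAll
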